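import Pool.Agent.ANE.Stmts
import Pool.Agent.Helper69_Mob.Cth
import Pool.Agent.Helper76_LQD.RAL
import Pool.Agent.Helper90_LQX.EGB

/-!
# ANE, row CTZ: the Green function at the origin on the lattice and on the torus
-/

set_option autoImplicit false

open MeasureTheory ProbabilityTheory Function Filter

open scoped ENNReal BigOperators InnerProductSpace Topology NNReal Matrix

noncomputable section

namespace Pool.Agent.ANE.H72

open Pool.Agent.Anderson hiding box mem_box card_box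
open Pool.Agent.Loc Pool.Agent.Mob Pool.Agent.Helper54.Bal
  Pool.Agent.Helper96.EXP Pool.Agent.BED
open Pool.Agent.LE.MN Pool.Agent.LE.CL Pool.Agent.LE.IR Pool.Agent.LE.QD
open Pool.Agent.LE.QX.H90 Pool.Agent.ANE

theorem zz_eq (η E : ℝ) : zz η E = ⟨E, η⟩ := by
  apply Complex.ext <;> simp

/-- the commutator term -/
def cm {d : ℕ} (L : ℕ) (u : Site d → ℂ) (y : Site d) : ℂ :=
  ∑ i : Fin d, (((ct L (y + Pi.single i 1) - ct L y : ℝ) : ℂ) * u (y + Pi.single i 1) +
      ((ct L (y - Pi.single i 1) - ct L y : ℝ) : ℂ) * u (y - Pi.single i 1))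

theorem cm_zero {d L : ℕ} (hL : 1 ≤ L) (u : Site d → ℂ) {y : Site d} (hy : sd 0 y < L) :
    cm L u y = 0 := by
  unfold cm
  refine Finset.sum_eq_zero fun i _ => ?_
  have h1 := sd_add y i
  have h2 := sd_sub y i
  have h3 := sd_triangle 0 y (y + Pi.single i 1)
  have h4 := sd_triangle 0 y (y - Pi.single i 1)
  rw [ct_one hL (y := y) hy.le, ct_one hL (y := y + Pi.single i 1) (by omega),
    ct_one hL (y := y - Pi.single i 1) (by omega)]
  simp

theorem rep_zero' {d M : ℕ} [NeZero M] : rep (0 : Tor d M) = 0 := by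
  funext i
  unfold rep
  simp

theorem expo {α : ℝ} (h0 : 0 ≤ α) (h1 : α ≤ 1) : Real.exp α - 1 ≤ 2 * α := by
  have h := Real.abs_exp_sub_one_le (x := α) (by rw [abs_of_nonneg h0]; exact h1)
  rw [abs_of_nonneg h0] at h
  exact (le_abs_self _).trans h

/-- the sum over a far set -/
theorem far {d : ℕ} (hCTH : CthStmt) (V : Site d → ℝ) (E η α : ℝ) (hη : 0 < η) (hα : 0 ≤ α)
    (h2 : 2 * d * (Real.exp α - 1) ≤ η / 2) (R : ℕ) (B : Finset (Site d))
    (hB : ∀ y ∈ B, R ≤ sd 0 y) :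
    ∑ y ∈ B, ‖G V (zz η E) (del 0) y‖ ^ 2 ≤ Real.exp (-(2 * α * R)) * (4 / η ^ 2) := by
  have h1 := hCTH d V η E α hη hα h2
  have h3 : ∑ y ∈ B, ENNReal.ofReal (Real.exp (2 * α * sd 0 y) * ‖G V (zz η E) (del 0) y‖ ^ 2) ≤
      ENNReal.ofReal (4 / η ^ 2) := (ENNReal.sum_le_tsum B).trans h1
  rw [← ENNReal.ofReal_sum_of_nonneg (fun y _ => by positivity),
    ENNReal.ofReal_le_ofReal_iff (by positivity)] at h3
  have h4 : Real.exp (2 * α * R) * ∑ y ∈ B, ‖G V (zz η E) (del 0) y‖ ^ 2 ≤ 4 / η ^ 2 := by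
    refine le_trans ?_ h3
    rw [Finset.mul_sum]
    refine Finset.sum_le_sum fun y hy => ?_
    have h5 : (R : ℝ) ≤ sd 0 y := by exact_mod_cast hB y hy
    gcongr
  have h6 : Real.exp (-(2 * α * R)) * Real.exp (2 * α * R) = 1 := by
    rw [← Real.exp_add]
    simp
  calc ∑ y ∈ B, ‖G V (zz η E) (del 0) y‖ ^ 2 = (Real.exp (-(2 * α * R)) * Real.exp (2 * α * R)) *
        ∑ y ∈ B, ‖G V (zz η E) (del 0) y‖ ^ 2 := by rw [h6, one_mul]
    _ = Real.exp (-(2 * α * R)) *
        (Real.exp (2 * α * R) * ∑ y ∈ B, ‖G V (zz η E) (del 0) y‖ ^ 2) := by ring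
    _ ≤ _ := by gcongr

theorem main {d : ℕ} (hCTH : CthStmt) (M : ℕ) [NeZero M] (V : Site d → ℝ) (E η α : ℝ)
    (hη : 0 < η) (hα : 0 ≤ α) (h2 : 2 * d * (Real.exp α - 1) ≤ η / 2) (L : ℕ) (hL : 1 ≤ L)
    (hM : 4 * L + 3 ≤ M) :
    ‖G V (zz η E) (del 0) 0 - rs (fun x : Tor d M => V (rep x)) ⟨E, η⟩ 0 0‖ ≤
      4 * d / η ^ 2 * Real.exp (-(α * (L - 1 : ℕ))) := by
  classical
  have hL0 : (1 : ℝ) ≤ L := by exact_mod_cast hL
  set z : ℂ := zz η E with hzd
  have hzi : z.im = η := zz_im η E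
  have hz0 : z.im ≠ 0 := by rw [hzi]; exact hη.ne'
  rw [← zz_eq, ← hzd]
  obtain ⟨u, hu⟩ : ∃ u : Site d → ℂ, u = fun y => G V z (del 0) y := ⟨_, rfl⟩
  obtain ⟨W, hW⟩ : ∃ W : Tor d M → ℝ, W = fun x => V (rep x) := ⟨_, rfl⟩
  obtain ⟨v, hv⟩ : ∃ v : Tor d M → ℂ, v = fun x => (ct L (rep x) : ℂ) * u (rep x) := ⟨_, rfl⟩
  have hvx : ∀ x, v x = (ct L (rep x) : ℂ) * u (rep x) := fun x => by rw [hv]
  have hWx : ∀ x, W x = V (rep x) := fun x => by rw [hW]
  have heq : ∀ y, ∑ i : Fin d, (u (y + Pi.single i 1) + u (y - Pi.single i 1)) +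
      ((V y : ℂ) - z) * u y = if y = 0 then 1 else 0 := by
    intro y
    have h := G_eq (V := V) hz0 (del (0 : Site d)) y
    rw [del_apply] at h
    rw [hu]
    exact h
  obtain ⟨r, hr⟩ : ∃ r : Tor d M → ℂ, r = hz W z *ᵥ v - Pi.single 0 1 := ⟨_, rfl⟩
  obtain ⟨A, hA⟩ : ∃ A : Finset (Site d), A = (box 0 (2 * L)).filter fun y => L ≤ sd 0 y :=
    ⟨_, rfl⟩
  obtain ⟨F, hF⟩ : ∃ F : Site d → ℝ, F = fun y => 2 * d / (L : ℝ) ^ 2 *
        ∑ i : Fin d, (‖u (y + Pi.single i 1)‖ ^ 2 + ‖u (y - Pi.single i 1)‖ ^ 2) := ⟨_, rfl⟩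
  have hF0 : ∀ y, 0 ≤ F y := by
    intro y
    rw [hF]
    positivity
  have hpt : ∀ x, ‖r x‖ ^ 2 ≤ if rep x ∈ A then F (rep x) else 0 := by
    intro x
    have hrx : r x = (hz W z *ᵥ v) x - if rep x = 0 then 1 else 0 := by
      rw [hr, Pi.sub_apply, Pi.single_apply]
      congr 1
      have : (x = 0) ↔ (rep x = 0) := by
        constructor
        · rintro rfl
          exact rep_zero'
        · intro h
          exact rep_inj (by rw [h, rep_zero'])
      simp only [this]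
    by_cases h : sd 0 (rep x) ≤ 2 * L
    · have e1 : ∀ i, rep (x + ev i) = rep x + Pi.single i 1 := rep_add (R := 2 * L) (by omega) h
      have e2 : ∀ i, rep (x - ev i) = rep x - Pi.single i 1 := rep_sub (R := 2 * L) (by omega) h
      obtain ⟨y, hy⟩ : ∃ y, y = rep x := ⟨_, rfl⟩
      have e3 : r x = cm L u y := by
        rw [hrx, hz_mulVec, hvx x, hWx x, ← hy]
        have e4 : ∀ i, v (x + ev i) + v (x - ev i) =
            (ct L y : ℂ) * (u (y + Pi.single i 1) + u (y - Pi.single i 1)) +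
            (((ct L (y + Pi.single i 1) - ct L y : ℝ) : ℂ) * u (y + Pi.single i 1) +
            ((ct L (y - Pi.single i 1) - ct L y : ℝ) : ℂ) * u (y - Pi.single i 1)) := by
          intro i
          rw [hvx, hvx, e1, e2, ← hy]
          push_cast
          ring
        rw [Finset.sum_congr rfl fun i _ => e4 i, Finset.sum_add_distrib, ← Finset.mul_sum]
        have e5 := heq y
        have e6 : (ct L y : ℂ) * (if y = 0 then (1 : ℂ) else 0) = if y = 0 then 1 else 0 := by
          split_ifs with h0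
          · rw [h0, ct_one hL (by rw [show sd (0 : Site d) 0 = 0 by
              rw [← Nat.le_zero, sd_le_iff]; simp]; omega)]
            simp
          · simp
        unfold cm
        rw [← e6, ← e5]
        ring
      rw [e3]
      by_cases h3 : L ≤ sd 0 y
      · rw [if_pos (by rw [hA, Finset.mem_filter, mem_box, ← hy]; exact ⟨by rw [hy]; exact h, h3⟩),
          hF, ← hy]
        exact comm_bound hL u y
      · rw [cm_zero hL u (not_le.1 h3)]
        split_ifs
        · simpa using hF0 _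
        · simp
    · have z0 : v x = 0 := by
        rw [hvx, ct_zero hL (by omega)]
        simp
      have z1 : ∀ x' : Tor d M, (∃ i, x = x' + ev i ∨ x = x' - ev i) → v x' = 0 := by
        rintro x' ⟨i, hi⟩
        rw [hvx]
        by_cases h2 : 2 * L ≤ sd 0 (rep x')
        · rw [ct_zero hL h2]
          simp
        · exfalso
          rw [not_le] at h2
          have h3 : sd 0 (rep x) ≤ 2 * L := by
            rcases hi with hi | hi
            · rw [hi, rep_add (R := 2 * L) (by omega) (by omega)]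
              have h4 := sd_triangle 0 (rep x') (rep x' + Pi.single i 1)
              have h5 := sd_add (rep x') i
              omega
            · rw [hi, rep_sub (R := 2 * L) (by omega) (by omega)]
              have h4 := sd_triangle 0 (rep x') (rep x' - Pi.single i 1)
              have h5 := sd_sub (rep x') i
              omega
          omega
      have z2 : ∑ i : Fin d, (v (x + ev i) + v (x - ev i)) = 0 := by
        refine Finset.sum_eq_zero fun i _ => ?_
        rw [z1 (x + ev i) ⟨i, Or.inr (by abel)⟩, z1 (x - ev i) ⟨i, Or.inl (by abel)⟩, add_zero]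
      have z3 : rep x ≠ 0 := by
        intro h0
        apply h
        rw [h0, show sd (0 : Site d) 0 = 0 by rw [← Nat.le_zero, sd_le_iff]; simp]
        omega
      rw [hrx, hz_mulVec, z0, z2, if_neg z3]
      split_ifs
      · simpa using hF0 _
      · simp
  obtain ⟨B, hB⟩ : ∃ B : Finset (Site d), B = (box 0 (2 * L + 1)).filter fun y => L - 1 ≤ sd 0 y :=
    ⟨_, rfl⟩
  have hfar : ∑ y ∈ B, ‖u y‖ ^ 2 ≤ Real.exp (-(2 * α * (L - 1 : ℕ))) * (4 / η ^ 2) := by
    have h := far hCTH V E η α hη hα h2 (L - 1) B (by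
      intro y hy
      rw [hB, Finset.mem_filter] at hy
      exact hy.2)
    rw [hu]
    exact h
  obtain ⟨S, hS⟩ : ∃ S : ℝ, S = Real.exp (-(2 * α * (L - 1 : ℕ))) * (4 / η ^ 2) := ⟨_, rfl⟩
  have hS0 : 0 ≤ S := by rw [hS]; positivity
  have hn2 : n2 r ≤ 4 * (d : ℝ) ^ 2 * S := by
    unfold n2
    refine (Finset.sum_le_sum fun x _ => hpt x).trans ?_
    refine (sum_rep F hF0 _).trans ?_
    rw [hF, ← Finset.mul_sum, Finset.sum_comm]
    have h1 : ∀ i : Fin d, ∑ y ∈ A, (‖u (y + Pi.single i 1)‖ ^ 2 +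
        ‖u (y - Pi.single i 1)‖ ^ 2) ≤ 2 * S := by
      intro i
      rw [Finset.sum_add_distrib]
      have h2 := sum_shift (fun y => ‖u y‖ ^ 2) (fun y => by positivity) (A := A)
        (B := B) (Pi.single i 1 : Site d) (by
          intro y hy
          rw [hA, Finset.mem_filter, mem_box] at hy
          rw [hB, Finset.mem_filter, mem_box]
          have h4 := sd_triangle 0 y (y + Pi.single i 1)
          have h5 := sd_add y i
          have h6 := sd_triangle 0 (y + Pi.single i 1) y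
          rw [sd_comm (y + Pi.single i 1) y] at h6
          omega)
      have h3 := sum_shift (fun y => ‖u y‖ ^ 2) (fun y => by positivity) (A := A)
        (B := B) (-Pi.single i 1 : Site d) (by
          intro y hy
          rw [hA, Finset.mem_filter, mem_box] at hy
          rw [hB, Finset.mem_filter, mem_box]
          have h4 := sd_triangle 0 y (y - Pi.single i 1)
          have h5 := sd_sub y i
          have h6 := sd_triangle 0 (y - Pi.single i 1) y
          rw [sd_comm (y - Pi.single i 1) y] at h6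
          rw [← sub_eq_add_neg]
          omega)
      simp only [← sub_eq_add_neg] at h3
      rw [← hS] at hfar
      linarith
    have h5 : ∑ i : Fin d, ∑ y ∈ A, (‖u (y + Pi.single i 1)‖ ^ 2 +
        ‖u (y - Pi.single i 1)‖ ^ 2) ≤ 2 * d * S := by
      calc _ ≤ ∑ _i : Fin d, 2 * S := Finset.sum_le_sum fun i _ => h1 i
        _ = 2 * d * S := by
            rw [Finset.sum_const, Finset.card_univ, Fintype.card_fin, nsmul_eq_mul]
            ring
    have h6 : 2 * (d : ℝ) / (L : ℝ) ^ 2 ≤ 2 * d := by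
      rw [div_le_iff₀ (by positivity)]
      have : (1 : ℝ) ≤ (L : ℝ) ^ 2 := by nlinarith
      have h7 : (0 : ℝ) ≤ 2 * d := by positivity
      nlinarith
    calc _ ≤ 2 * (d : ℝ) * (2 * d * S) :=
          mul_le_mul h6 h5 (Finset.sum_nonneg fun i _ => Finset.sum_nonneg fun y _ => by positivity)
            (by positivity)
      _ = _ := by ring
  -- the solution
  have hsol : v = rs W z *ᵥ (Pi.single 0 1) + rs W z *ᵥ r := by
    have h1 : rs W z *ᵥ (hz W z *ᵥ v) = v := by
      rw [Matrix.mulVec_mulVec, Pool.Agent.LE.QD.H76.rs_mul W hz0, Matrix.one_mulVec]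
    rw [← Matrix.mulVec_add, hr, add_sub_cancel, h1]
  have hv0 : v 0 = G V z (del 0) 0 := by
    rw [hvx, rep_zero', ct_one hL (by rw [show sd (0 : Site d) 0 = 0 by
      rw [← Nat.le_zero, sd_le_iff]; simp]; omega), hu]
    simp
  have h00 : (rs W z *ᵥ (Pi.single 0 1)) 0 = rs W z 0 0 := by
    rw [Matrix.mulVec_single_one]
    rfl
  have hdiff : G V z (del 0) 0 - rs W z 0 0 = (rs W z *ᵥ r) 0 := by
    have h1 := congrFun hsol 0
    rw [Pi.add_apply, h00, hv0] at h1
    rw [h1]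
    ring
  have hb1 : ‖(rs W z *ᵥ r) 0‖ ^ 2 ≤ n2 r / η ^ 2 := by
    have h1 := Pool.Agent.LE.QD.H76.rs_bd W hz0 r
    rw [hzi] at h1
    refine le_trans ?_ h1
    exact Finset.single_le_sum (f := fun x => ‖(rs W z *ᵥ r) x‖ ^ 2)
      (fun x _ => by positivity) (Finset.mem_univ 0)
  have hb2 : ‖(rs W z *ᵥ r) 0‖ ^ 2 ≤ (4 * d / η ^ 2 * Real.exp (-(α * (L - 1 : ℕ)))) ^ 2 := by
    refine hb1.trans ?_
    have h3 : Real.exp (-(2 * α * (L - 1 : ℕ))) = Real.exp (-(α * (L - 1 : ℕ))) ^ 2 := by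
      rw [← Real.exp_nat_mul]
      congr 1
      push_cast
      ring
    rw [div_le_iff₀ (by positivity)]
    refine hn2.trans (le_of_eq ?_)
    rw [hS, h3]
    field_simp
  rw [← hW, hdiff]
  exact (le_abs_self _).trans (abs_le_of_sq_le_sq hb2 (by positivity))

theorem small {d M : ℕ} [NeZero M] (V : Site d → ℝ) (E η : ℝ) (hη : 0 < η) (h1 : η ≤ 1) :
    ‖G V (zz η E) (del 0) 0 - rs (fun x : Tor d M => V (rep x)) ⟨E, η⟩ 0 0‖ ≤ 2 / η ^ 2 := by
  have hz0 : (zz η E).im ≠ 0 := by rw [zz_im]; exact hη.ne'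
  have h2 : ‖G V (zz η E) (del 0) 0‖ ≤ 1 / η := by
    have h3 := (isRes_G V).norm_le' hz0 (del (0 : Site d))
    rw [norm_del, zz_im, abs_of_pos hη, mul_one] at h3
    refine (lp.norm_apply_le_norm (by norm_num) _ _).trans (h3.trans (le_of_eq ?_))
    rw [one_div]
  have h4 : ‖rs (fun x : Tor d M => V (rep x)) ⟨E, η⟩ 0 0‖ ≤ 1 / η := by
    have h5 := Pool.Agent.LE.QD.H76.rs_bd (fun x : Tor d M => V (rep x)) hz0 (Pi.single 0 1)
    rw [Matrix.mulVec_single_one, zz_im, zz_eq] at h5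
    have h6 : n2 (Pi.single 0 1 : Tor d M → ℂ) = 1 := by
      unfold n2
      rw [Finset.sum_eq_single 0]
      · simp
      · intro b _ hb
        simp [hb]
      · simp
    rw [h6] at h5
    have h7 : ‖rs (fun x : Tor d M => V (rep x)) ⟨E, η⟩ 0 0‖ ^ 2 ≤ (1 / η) ^ 2 := by
      rw [div_pow, one_pow]
      refine le_trans ?_ h5
      exact Finset.single_le_sum
        (f := fun x => ‖(rs (fun x : Tor d M => V (rep x)) ⟨E, η⟩).col 0 x‖ ^ 2)
        (fun x _ => by positivity) (Finset.mem_univ 0)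
    exact (le_abs_self _).trans (abs_le_of_sq_le_sq h7 (by positivity))
  have h8 : 1 / η ≤ 1 / η ^ 2 := by
    apply one_div_le_one_div_of_le (by positivity)
    nlinarith
  calc _ ≤ ‖G V (zz η E) (del 0) 0‖ + ‖rs (fun x : Tor d M => V (rep x)) ⟨E, η⟩ 0 0‖ :=
        norm_sub_le _ _
    _ ≤ 1 / η ^ 2 + 1 / η ^ 2 := by linarith
    _ = _ := by ring

/-- CTZ -/
theorem ctz' (hCTH : CthStmt) : CtzStmt := by
  intro d
  refine ⟨32 * (d + 1), by nlinarith [(Nat.cast_nonneg d : (0 : ℝ) ≤ d)], ?_⟩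
  intro M _ V E η hη hη1
  have hd0 : (0 : ℝ) ≤ d := Nat.cast_nonneg d
  obtain ⟨C, hC⟩ : ∃ C : ℝ, C = 32 * (d + 1) := ⟨_, rfl⟩
  rw [← hC]
  have hC0 : 32 ≤ C := by rw [hC]; linarith
  by_cases hM : M < 12
  · refine (small V E η hη hη1).trans ?_
    have hM' : (M : ℝ) ≤ 12 := by exact_mod_cast hM.le
    have h1 : η * M / C ≤ 1 / 2 := by
      rw [div_le_iff₀ (by linarith)]
      nlinarith [(Nat.cast_nonneg M : (0 : ℝ) ≤ M)]
    have h2 : 1 / 2 ≤ Real.exp (-(η * M / C)) := by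
      have := Real.add_one_le_exp (-(η * M / C))
      linarith
    have h3 : 2 / η ^ 2 ≤ C / η ^ 2 * (1 / 2) := by
      rw [div_mul_eq_mul_div]
      gcongr
      linarith
    refine h3.trans ?_
    gcongr
  · rw [not_lt] at hM
    obtain ⟨α, hα⟩ : ∃ α : ℝ, α = η / (8 * (d + 1)) := ⟨_, rfl⟩
    have hα0 : 0 ≤ α := by rw [hα]; positivity
    have hα1 : α ≤ 1 / 8 := by
      rw [hα, div_le_iff₀ (by positivity)]
      linarith
    have hαη : α * (8 * (d + 1)) = η := by
      rw [hα]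
      field_simp
    have h2 : 2 * d * (Real.exp α - 1) ≤ η / 2 := by
      have h3 := expo hα0 (by linarith)
      have h4 : 2 * d * (Real.exp α - 1) ≤ 2 * d * (2 * α) := by gcongr
      nlinarith
    obtain ⟨L, hL⟩ : ∃ L : ℕ, L = (M - 3) / 4 := ⟨_, rfl⟩
    have h5 := main hCTH M V E η α hη hα0 h2 L (by omega) (by omega)
    refine h5.trans ?_
    have h6 : (M : ℝ) ≤ 4 * ((L - 1 : ℕ) : ℝ) + 10 := by
      have : M ≤ 4 * (L - 1) + 10 := by omega
      exact_mod_cast this
    have h7 : -(α * ((L - 1 : ℕ) : ℝ)) ≤ 1 / 2 + -(η * M / C) := by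
      have h8 : η * M / C = α * M / 4 := by
        rw [div_eq_iff (by linarith), hC, ← hαη]
        ring
      rw [h8]
      nlinarith
    have h9 : Real.exp (-(α * ((L - 1 : ℕ) : ℝ))) ≤ 2 * Real.exp (-(η * M / C)) := by
      refine (Real.exp_le_exp.2 h7).trans ?_
      rw [Real.exp_add]
      gcongr
      have := expo (α := 1 / 2) (by norm_num) (by norm_num)
      linarith
    calc 4 * d / η ^ 2 * Real.exp (-(α * ((L - 1 : ℕ) : ℝ))) ≤
        4 * d / η ^ 2 * (2 * Real.exp (-(η * M / C))) := by gcongr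
      _ = 8 * d / η ^ 2 * Real.exp (-(η * M / C)) := by ring
      _ ≤ _ := by
          gcongr
          rw [hC]
          linarith

/-- CTZ -/
theorem ctz : CtzStmt := ctz' Pool.Agent.Mob.H69.cth

end Pool.Agent.ANE.H72
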