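import Pool.Agent.ANE.Stmts
import Pool.Agent.Helper77_LCH.ERG

/-!
# ANE, rows FLT and SPC: flat cubes, the spectrum is the whole line
-/

set_option autoImplicit false

open MeasureTheory ProbabilityTheory Function Filter

open scoped ENNReal BigOperators InnerProductSpace Topology NNReal

noncomputable section

namespace Pool.Agent.ANE.H72

open Pool.Agent.Anderson hiding box mem_box card_box
open Pool.Agent.Loc Pool.Agent.Mob Pool.Agent.Helper54.Bal
  Pool.Agent.Helper96.EXP Pool.Agent.BED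
open Pool.Agent.LE.MN Pool.Agent.LE.CL Pool.Agent.LE.IR Pool.Agent.LE.QD
open Pool.Agent.ANE

variable {d : ℕ}

theorem meas_flb (l δ : ℝ) (n : ℕ) (b : Site d) :
    MeasurableSet {V : Site d → ℝ | FlB V l δ n b} := by
  unfold FlB
  have h1 : {V : Site d → ℝ | ∀ y : Site d, sd b y ≤ n → |V y - l| ≤ δ} =
      ⋂ y : Site d, ⋂ _ : sd b y ≤ n, {V : Site d → ℝ | |V y - l| ≤ δ} := by
    ext V
    simp only [Set.mem_ofPred_eq, Set.mem_iInter]
  rw [h1]
  refine MeasurableSet.iInter fun y => MeasurableSet.iInter fun _ => ?_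
  have h2 : Measurable fun V : Site d → ℝ => |V y - l| := by fun_prop
  exact measurableSet_le h2 measurable_const

theorem gl_pos {σ : ℝ} (hσ : σ ≠ 0) (l : ℝ) {δ : ℝ} (hδ : 0 < δ) :
    gl σ (Set.Icc (l - δ) (l + δ)) ≠ 0 := by
  have h1 : gl σ = gaussianReal 0 (.mk (σ ^ 2) (sq_nonneg _)) := by
    unfold gl γ1
    rw [gaussianReal_map_const_mul, mul_zero, mul_one]
  have hv : (NNReal.mk (σ ^ 2) (sq_nonneg _)) ≠ 0 := by
    intro h
    have : σ ^ 2 = 0 := congrArg NNReal.toReal h
    exact hσ (by simpa using this)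
  rw [h1]
  intro h0
  have h2 := gaussianReal_absolutelyContinuous' 0 hv h0
  rw [Real.volume_Icc, ENNReal.ofReal_eq_zero] at h2
  linarith

theorem flb_pos {σ : ℝ} (hσ : σ ≠ 0) (l : ℝ) {δ : ℝ} (hδ : 0 < δ) (n : ℕ) :
    PP d (gl σ) {V : Site d → ℝ | FlB V l δ n 0} ≠ 0 := by
  have h1 : {V : Site d → ℝ | FlB V l δ n 0} =
      Set.pi (box (0 : Site d) n : Set (Site d)) fun _ => Set.Icc (l - δ) (l + δ) := by
    ext V
    simp only [FlB, Set.mem_ofPred_eq, Set.mem_pi, Finset.mem_coe, mem_box, Set.mem_Icc, abs_le]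
    constructor
    · intro h y hy
      have := h y hy
      exact ⟨by linarith [this.1], by linarith [this.2]⟩
    · intro h y hy
      have := h y hy
      exact ⟨by linarith [this.1], by linarith [this.2]⟩
  rw [h1]
  unfold PP
  rw [Measure.infinitePi_pi _ (fun _ _ => measurableSet_Icc)]
  exact Finset.prod_ne_zero_iff.2 fun _ _ => gl_pos hσ l hδ

theorem flt : FltStmt := by
  intro d σ hd hσ
  rw [ae_all_iff]
  intro l
  rw [ae_all_iff]
  intro k
  rw [ae_all_iff]
  intro n
  obtain ⟨A, hA⟩ : ∃ A : Set (Site d → ℝ), A = {V | ∃ b : Site d, FlB V l (1 / (k + 1)) n b} :=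
    ⟨_, rfl⟩
  have hm : MeasurableSet A := by
    have h1 : A = ⋃ b : Site d, {V | FlB V l (1 / (k + 1)) n b} := by
      rw [hA]
      ext V
      simp only [Set.mem_ofPred_eq, Set.mem_iUnion]
    rw [h1]
    exact MeasurableSet.iUnion fun b => meas_flb _ _ _ _
  have hinv : ∀ a : Site d, Pool.Agent.Helper54.Bal.tau a ⁻¹' A = A := by
    intro a
    rw [hA]
    ext V
    simp only [Set.mem_preimage, Set.mem_ofPred_eq]
    constructor
    · rintro ⟨b, hb⟩
      refine ⟨b + a, fun y hy => ?_⟩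
      have h1 := hb (y - a) (by
        rw [sd_le_iff] at hy ⊢
        intro i
        have := hy i
        simp only [Pi.add_apply, Pi.sub_apply] at this ⊢
        rw [show b i - (y i - a i) = b i + a i - y i by ring]
        exact this)
      have h2 : Pool.Agent.Helper54.Bal.tau a V (y - a) = V y := by
        unfold Pool.Agent.Helper54.Bal.tau
        rw [sub_add_cancel]
      rwa [h2] at h1
    · rintro ⟨b, hb⟩
      refine ⟨b - a, fun y hy => ?_⟩
      have h1 := hb (y + a) (by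
        rw [sd_le_iff] at hy ⊢
        intro i
        have := hy i
        simp only [Pi.add_apply, Pi.sub_apply] at this ⊢
        rw [show b i - (y i + a i) = b i - a i - y i by ring]
        exact this)
      exact h1
  have hpos : PP d (gl σ) A ≠ 0 := by
    have h1 := flb_pos (d := d) hσ (l : ℝ) (δ := 1 / ((k : ℝ) + 1)) (by positivity) n
    intro h0
    apply h1
    refine measure_mono_null ?_ h0
    intro V hV
    rw [hA]
    exact ⟨0, hV⟩
  have h1 : PP d (gl σ) A = 1 := by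
    rcases Pool.Agent.LE.CH.H77.erg d (gl σ) A hd hm hinv with h | h
    · exact absurd h hpos
    · exact h
  have h2 : ∀ᵐ V ∂(PP d (gl σ)), V ∈ A := by
    rw [← prob_compl_eq_zero_iff hm] at h1
    exact h1
  filter_upwards [h2] with V hV
  rw [hA] at hV
  exact hV

theorem quasi_shift {V : Site d → ℝ} {ε lam E : ℝ} {v : L2 d} (h : IsQuasi V ε lam v) :
    IsQuasi V (ε + |lam - E|) E v := by
  obtain ⟨hv, r, hr, heq⟩ := h
  refine ⟨hv, r + ((lam - E : ℝ) : ℂ) • v, ?_, ?_⟩
  · refine (norm_add_le _ _).trans (add_le_add hr ?_)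
    rw [norm_smul, Complex.norm_real, Real.norm_eq_abs]
    nlinarith [abs_nonneg (lam - E), norm_nonneg v]
  · intro y
    rw [lp.coeFn_add, Pi.add_apply, lp.coeFn_smul, Pi.smul_apply, smul_eq_mul, ← heq y]
    push_cast
    ring

theorem spc (hWEY : WeyStmt) (hFLT : FltStmt) : SpcStmt := by
  intro d σ hd hσ
  obtain ⟨C, hC, H⟩ := hWEY d
  filter_upwards [hFLT d σ hd hσ] with V hV
  intro E₀ ε hε
  have hC0 : 0 < C := by linarith
  obtain ⟨l, hl1, hl2⟩ := exists_rat_btwn (show E₀ - 2 * d - ε / 2 < E₀ - 2 * d by linarith)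
  obtain ⟨k, hk⟩ := exists_nat_gt (4 * C / ε)
  obtain ⟨b, hb⟩ := hV l k (k + 1)
  obtain ⟨φ, hφ, hφ0, hq⟩ := H V l (1 / ((k : ℝ) + 1)) (k + 1) b (by omega) (by positivity) hb
  refine ⟨φ, hφ, ?_, ?_⟩
  · refine (box b (k + 1)).finite_toSet.subset ?_
    intro x hx
    by_contra hcon
    rw [Finset.mem_coe, mem_box, not_le] at hcon
    exact hx (hφ0 x hcon)
  · have h1 := quasi_shift (E := E₀) hq
    obtain ⟨hv, r, hr, heq⟩ := h1
    refine ⟨hv, r, hr.trans ?_, heq⟩
    have h2 : |(l : ℝ) + 2 * d - E₀| ≤ ε / 2 := by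
      rw [abs_le]
      constructor <;> linarith
    have h3 : C * (1 / (((k + 1 : ℕ) : ℕ) : ℝ) + 1 / ((k : ℝ) + 1)) ≤ ε / 2 := by
      push_cast
      have h4 : 4 * C / ε < (k : ℝ) + 1 := by linarith
      rw [div_lt_iff₀ hε] at h4
      have h5 : C * (1 / ((k : ℝ) + 1) + 1 / ((k : ℝ) + 1)) = 2 * C / ((k : ℝ) + 1) := by ring
      rw [h5, div_le_iff₀ (by positivity)]
      nlinarith
    linarith

end Pool.Agent.ANE.H72
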