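import Pool.Agent.ANE.Stmts
import Pool.Agent.Helper90_LQX.EGB

/-!
# ANE, row WEY: Weyl vectors in flat cubes
-/

set_option autoImplicit false

open MeasureTheory ProbabilityTheory Function Filter

open scoped ENNReal BigOperators InnerProductSpace Topology NNReal

noncomputable section

namespace Pool.Agent.ANE.H72

open Pool.Agent.Anderson hiding box mem_box card_box
open Pool.Agent.Loc Pool.Agent.Mob Pool.Agent.Helper54.Bal
  Pool.Agent.Helper96.EXP Pool.Agent.BED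
open Pool.Agent.LE.MN Pool.Agent.LE.CL Pool.Agent.LE.IR Pool.Agent.LE.QD
open Pool.Agent.LE.QX.H90 Pool.Agent.ANE

variable {d : ℕ}

theorem fin_mem (f : Site d → ℂ) (S : Finset (Site d)) (h : ∀ y, y ∉ S → f y = 0) :
    Memℓp f 2 := by
  rw [memℓp_iff]
  refine summable_of_ne_finset_zero (s := S) fun y hy => ?_
  rw [h y hy]
  simp

/-- a finitely supported vector -/
def fv (f : Site d → ℂ) (S : Finset (Site d)) (h : ∀ y, y ∉ S → f y = 0) : L2 d :=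
  ⟨f, fin_mem f S h⟩

theorem fv_apply (f : Site d → ℂ) (S : Finset (Site d)) (h : ∀ y, y ∉ S → f y = 0) (y : Site d) :
    fv f S h y = f y := rfl

theorem fv_norm (f : Site d → ℂ) (S : Finset (Site d)) (h : ∀ y, y ∉ S → f y = 0) :
    ‖fv f S h‖ ^ 2 = ∑ y ∈ S, ‖f y‖ ^ 2 := by
  rw [L2.norm_sq]
  refine tsum_eq_sum fun y hy => ?_
  rw [fv_apply, h y hy]
  simp

/-- the tent -/
def tent (n : ℕ) (b y : Site d) : ℝ := max 0 ((n : ℝ) - sd b y)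

theorem tent_nonneg (n : ℕ) (b y : Site d) : 0 ≤ tent n b y := le_max_left _ _

theorem tent_zero {n : ℕ} {b y : Site d} (h : n ≤ sd b y) : tent n b y = 0 := by
  unfold tent
  have : (n : ℝ) ≤ sd b y := by exact_mod_cast h
  exact max_eq_left (by linarith)

theorem tent_lip (n : ℕ) (b : Site d) {y y' : Site d} (h : sd y y' ≤ 1) :
    |tent n b y' - tent n b y| ≤ 1 := by
  have h1 : (sd b y' : ℝ) ≤ sd b y + 1 := by
    have := sd_triangle b y y'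
    exact_mod_cast this.trans (by omega)
  have h2 : (sd b y : ℝ) ≤ sd b y' + 1 := by
    have h3 := sd_triangle b y' y
    rw [sd_comm y' y] at h3
    exact_mod_cast h3.trans (by omega)
  unfold tent
  rw [abs_le]
  constructor <;> simp only [max_def] <;> split_ifs <;> linarith

theorem wey : WeyStmt := by
  classical
  intro d
  obtain ⟨C, hC⟩ : ∃ C : ℝ, C = 2 + 6 * d * 3 ^ d := ⟨_, rfl⟩
  have hC2 : 2 ≤ C := by rw [hC]; have : (0 : ℝ) ≤ 6 * d * 3 ^ d := by positivity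
                         linarith
  refine ⟨C, by linarith, ?_⟩
  intro V l δ n b hn hδ hF
  have hn0 : (1 : ℝ) ≤ n := by exact_mod_cast hn
  obtain ⟨ψ, hψ⟩ : ∃ ψ : Site d → ℂ, ψ = fun y => (tent n b y : ℂ) := ⟨_, rfl⟩
  have hψx : ∀ y, ψ y = (tent n b y : ℂ) := fun y => by rw [hψ]
  have hψ0 : ∀ y, y ∉ box b n → ψ y = 0 := by
    intro y hy
    rw [mem_box, not_le] at hy
    rw [hψx, tent_zero hy.le]
    simp
  obtain ⟨r, hr⟩ : ∃ r : Site d → ℂ, r = fun y => lap ψ y + (V y : ℂ) * ψ y -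
      ((l + 2 * d : ℝ) : ℂ) * ψ y := ⟨_, rfl⟩
  have hrx : ∀ y, r y = lap ψ y + (V y : ℂ) * ψ y - ((l + 2 * d : ℝ) : ℂ) * ψ y := fun y => by
    rw [hr]
  have hr0 : ∀ y, y ∉ box b n → r y = 0 := by
    intro y hy
    rw [hrx, hψ0 y hy]
    rw [mem_box, not_le] at hy
    have h1 : lap ψ y = 0 := by
      unfold lap
      refine Finset.sum_eq_zero fun i _ => ?_
      have h2 := sd_triangle b (y + Pi.single i 1) y
      have h3 := sd_triangle b (y - Pi.single i 1) y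
      rw [sd_comm (y + Pi.single i 1) y] at h2
      rw [sd_comm (y - Pi.single i 1) y] at h3
      have h4 := sd_add y i
      have h5 := sd_sub y i
      rw [hψx, hψx, tent_zero (y := y + Pi.single i 1) (by omega),
        tent_zero (y := y - Pi.single i 1) (by omega)]
      simp
    rw [h1]
    simp
  -- the pointwise bound for `r`
  have hrb : ∀ y ∈ box b n, ‖r y‖ ^ 2 ≤ 2 * (2 * d) ^ 2 + 2 * (δ ^ 2 * ‖ψ y‖ ^ 2) := by
    intro y hy
    rw [mem_box] at hy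
    have h1 : r y = ∑ i : Fin d, (((tent n b (y + Pi.single i 1) - tent n b y : ℝ) : ℂ) +
        ((tent n b (y - Pi.single i 1) - tent n b y : ℝ) : ℂ)) +
        ((V y - l : ℝ) : ℂ) * ψ y := by
      rw [hrx]
      unfold lap
      have h2 : ∀ i : Fin d, ψ (y + Pi.single i 1) + ψ (y - Pi.single i 1) =
          (((tent n b (y + Pi.single i 1) - tent n b y : ℝ) : ℂ) +
          ((tent n b (y - Pi.single i 1) - tent n b y : ℝ) : ℂ)) + 2 * ψ y := by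
        intro i
        rw [hψx, hψx, hψx]
        push_cast
        ring
      rw [Finset.sum_congr rfl fun i _ => h2 i, Finset.sum_add_distrib, Finset.sum_const,
        Finset.card_univ, Fintype.card_fin, nsmul_eq_mul]
      push_cast
      ring
    have h2 : ‖∑ i : Fin d, (((tent n b (y + Pi.single i 1) - tent n b y : ℝ) : ℂ) +
        ((tent n b (y - Pi.single i 1) - tent n b y : ℝ) : ℂ))‖ ≤ 2 * d := by
      refine (norm_sum_le _ _).trans ?_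
      calc _ ≤ ∑ _i : Fin d, (2 : ℝ) := by
            refine Finset.sum_le_sum fun i _ => ?_
            refine (norm_add_le _ _).trans ?_
            rw [Complex.norm_real, Complex.norm_real, Real.norm_eq_abs, Real.norm_eq_abs]
            have a1 := tent_lip n b (sd_add y i)
            have a2 := tent_lip n b (sd_sub y i)
            linarith
        _ = 2 * d := by
            rw [Finset.sum_const, Finset.card_univ, Fintype.card_fin, nsmul_eq_mul]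
            ring
    have h3 : ‖((V y - l : ℝ) : ℂ) * ψ y‖ ≤ δ * ‖ψ y‖ := by
      rw [norm_mul, Complex.norm_real, Real.norm_eq_abs]
      exact mul_le_mul_of_nonneg_right (hF y hy) (norm_nonneg _)
    have h4 : ‖r y‖ ≤ 2 * d + δ * ‖ψ y‖ := by
      rw [h1]
      exact (norm_add_le _ _).trans (add_le_add h2 h3)
    have h5 : ‖r y‖ ^ 2 ≤ (2 * d + δ * ‖ψ y‖) ^ 2 := pow_le_pow_left₀ (norm_nonneg _) h4 2
    nlinarith [sq_nonneg (2 * (d : ℝ) - δ * ‖ψ y‖)]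
  obtain ⟨Ψ, hΨ⟩ : ∃ Ψ : L2 d, Ψ = fv ψ (box b n) hψ0 := ⟨_, rfl⟩
  obtain ⟨R, hR⟩ : ∃ R : L2 d, R = fv r (box b n) hr0 := ⟨_, rfl⟩
  have hΨn : ‖Ψ‖ ^ 2 = ∑ y ∈ box b n, ‖ψ y‖ ^ 2 := by rw [hΨ]; exact fv_norm _ _ _
  have hRn : ‖R‖ ^ 2 = ∑ y ∈ box b n, ‖r y‖ ^ 2 := by rw [hR]; exact fv_norm _ _ _
  -- the lower bound for the norm
  have hlow : (n : ℝ) ^ 2 / 4 * n ^ d ≤ ‖Ψ‖ ^ 2 := by
    rw [hΨn]
    have h1 : ∑ y ∈ box b (n / 2), (n : ℝ) ^ 2 / 4 ≤ ∑ y ∈ box b n, ‖ψ y‖ ^ 2 := by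
      have h2 : box b (n / 2) ⊆ box b n := by
        intro y hy
        rw [mem_box] at hy ⊢
        omega
      refine le_trans ?_ (Finset.sum_le_sum_of_subset_of_nonneg h2 fun y _ _ => by positivity)
      refine Finset.sum_le_sum fun y hy => ?_
      rw [mem_box] at hy
      have h3 : (n : ℝ) / 2 ≤ tent n b y := by
        refine le_trans ?_ (le_max_right _ _)
        have h4 : (sd b y : ℝ) ≤ n / 2 := by
          have h5 : 2 * sd b y ≤ n := by omega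
          have h6 : (2 : ℝ) * sd b y ≤ n := by exact_mod_cast h5
          linarith
        linarith
      rw [hψx, Complex.norm_real, Real.norm_of_nonneg (tent_nonneg n b y)]
      nlinarith
    rw [Finset.sum_const, card_box, nsmul_eq_mul] at h1
    have h7 : (n : ℝ) ^ d ≤ (((2 * (n / 2) + 1) ^ d : ℕ) : ℝ) := by
      have h8 : n ^ d ≤ (2 * (n / 2) + 1) ^ d := Nat.pow_le_pow_left (by omega) d
      exact_mod_cast h8
    calc (n : ℝ) ^ 2 / 4 * n ^ d ≤ (n : ℝ) ^ 2 / 4 * (((2 * (n / 2) + 1) ^ d : ℕ) : ℝ) := by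
          gcongr
      _ = (((2 * (n / 2) + 1) ^ d : ℕ) : ℝ) * ((n : ℝ) ^ 2 / 4) := by ring
      _ ≤ _ := h1
  have hΨ0 : 0 < ‖Ψ‖ := by
    have h1 : 0 < ‖Ψ‖ ^ 2 := lt_of_lt_of_le (by positivity) hlow
    rcases (norm_nonneg Ψ).eq_or_lt with h | h
    · rw [← h] at h1
      norm_num at h1
    · exact h
  have hup : ‖R‖ ^ 2 ≤ (C * (1 / n + δ) * ‖Ψ‖) ^ 2 := by
    rw [hRn]
    have h1 : ∑ y ∈ box b n, ‖r y‖ ^ 2 ≤ 8 * (d : ℝ) ^ 2 * (3 ^ d * n ^ d) +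
        2 * δ ^ 2 * ‖Ψ‖ ^ 2 := by
      refine (Finset.sum_le_sum hrb).trans ?_
      rw [Finset.sum_add_distrib, Finset.sum_const, card_box, nsmul_eq_mul, ← Finset.mul_sum,
        ← Finset.mul_sum, ← hΨn]
      have h2 : (((2 * n + 1) ^ d : ℕ) : ℝ) ≤ 3 ^ d * n ^ d := by
        rw [← mul_pow]
        have h3 : (2 * n + 1) ^ d ≤ (3 * n) ^ d := Nat.pow_le_pow_left (by omega) d
        exact_mod_cast h3
      calc (((2 * n + 1) ^ d : ℕ) : ℝ) * (2 * (2 * (d : ℝ)) ^ 2) + 2 * (δ ^ 2 * ‖Ψ‖ ^ 2) ≤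
          3 ^ d * n ^ d * (2 * (2 * (d : ℝ)) ^ 2) + 2 * (δ ^ 2 * ‖Ψ‖ ^ 2) := by gcongr
        _ = _ := by ring
    have h2 : 8 * (d : ℝ) ^ 2 * (3 ^ d * n ^ d) ≤ 32 * (d : ℝ) ^ 2 * 3 ^ d * (1 / n) ^ 2 *
        ‖Ψ‖ ^ 2 := by
      calc 8 * (d : ℝ) ^ 2 * (3 ^ d * n ^ d) = 32 * (d : ℝ) ^ 2 * 3 ^ d * (1 / n) ^ 2 *
            ((n : ℝ) ^ 2 / 4 * n ^ d) := by
            field_simp
            ring
        _ ≤ _ := by gcongr
    have h3 : 32 * (d : ℝ) ^ 2 * 3 ^ d ≤ C ^ 2 := by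
      have h4 : (1 : ℝ) ≤ 3 ^ d := one_le_pow₀ (by norm_num)
      have h5 : 6 * (d : ℝ) * 3 ^ d ≤ C := by rw [hC]; linarith
      calc 32 * (d : ℝ) ^ 2 * 3 ^ d ≤ 36 * (d : ℝ) ^ 2 * (3 ^ d * 3 ^ d) := by
            have h6 : (0 : ℝ) ≤ (d : ℝ) ^ 2 * 3 ^ d := by positivity
            nlinarith
        _ = (6 * (d : ℝ) * 3 ^ d) ^ 2 := by ring
        _ ≤ C ^ 2 := pow_le_pow_left₀ (by positivity) h5 2
    have h6 : 2 ≤ C ^ 2 := by nlinarith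
    have h7 : (0 : ℝ) ≤ 1 / n := by positivity
    calc _ ≤ 32 * (d : ℝ) ^ 2 * 3 ^ d * (1 / n) ^ 2 * ‖Ψ‖ ^ 2 + 2 * δ ^ 2 * ‖Ψ‖ ^ 2 := by
          linarith
      _ ≤ C ^ 2 * (1 / n) ^ 2 * ‖Ψ‖ ^ 2 + C ^ 2 * δ ^ 2 * ‖Ψ‖ ^ 2 := by gcongr
      _ = C ^ 2 * ((1 / n) ^ 2 + δ ^ 2) * ‖Ψ‖ ^ 2 := by ring
      _ ≤ C ^ 2 * (1 / n + δ) ^ 2 * ‖Ψ‖ ^ 2 := by
          gcongr
          nlinarith
      _ = _ := by ring
  have hC0 : 0 ≤ C * (1 / n + δ) * ‖Ψ‖ := by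
    have : (0 : ℝ) ≤ 1 / n := by positivity
    positivity
  have hRle : ‖R‖ ≤ C * (1 / n + δ) * ‖Ψ‖ := by
    have := abs_le_of_sq_le_sq hup hC0
    exact (le_abs_self _).trans this
  have hinv : ‖((‖Ψ‖⁻¹ : ℝ) : ℂ)‖ = ‖Ψ‖⁻¹ := by
    rw [Complex.norm_real, Real.norm_of_nonneg (by positivity)]
  have hone : ‖((‖Ψ‖⁻¹ : ℝ) : ℂ) • Ψ‖ = 1 := by
    rw [norm_smul, hinv, inv_mul_cancel₀ hΨ0.ne']
  refine ⟨((‖Ψ‖⁻¹ : ℝ) : ℂ) • Ψ, hone, ?_, hone.le, ((‖Ψ‖⁻¹ : ℝ) : ℂ) • R, ?_, ?_⟩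
  · intro y hy
    rw [lp.coeFn_smul, Pi.smul_apply, hΨ, fv_apply, hψ0 y (by rw [mem_box]; omega), smul_zero]
  · rw [norm_smul, hinv, inv_mul_le_iff₀ hΨ0]
    linarith
  · intro y
    have h1 : ∀ x, (((‖Ψ‖⁻¹ : ℝ) : ℂ) • Ψ) x = ((‖Ψ‖⁻¹ : ℝ) : ℂ) * ψ x := by
      intro x
      rw [lp.coeFn_smul, Pi.smul_apply, hΨ, fv_apply, smul_eq_mul]
    have h2 : (((‖Ψ‖⁻¹ : ℝ) : ℂ) • R) y = ((‖Ψ‖⁻¹ : ℝ) : ℂ) * r y := by
      rw [lp.coeFn_smul, Pi.smul_apply, hR, fv_apply, smul_eq_mul]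
    have h3 : lap (⇑(((‖Ψ‖⁻¹ : ℝ) : ℂ) • Ψ)) y = ((‖Ψ‖⁻¹ : ℝ) : ℂ) * lap ψ y := by
      unfold lap
      rw [Finset.mul_sum]
      refine Finset.sum_congr rfl fun i _ => ?_
      rw [h1, h1]
      ring
    rw [h2, h3, h1, hrx]
    ring

end Pool.Agent.ANE.H72
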