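import Pool.Agent.Helper72_ANE.Out
import Pool.Agent.Helper72_ANE.Flt
import Pool.Agent.Helper72_ANE.Wey
import Pool.Agent.Helper90_ANE.PR3
import Pool.Agent.Helper76_AEN.All

/-!
# ANE: the end of the Anderson model in dimension `≥ 3`, with no open hypothesis except TR3
-/

set_option autoImplicit false

namespace Pool.Agent.ANE.H72

open Pool.Agent.ANE

universe u

/-- Continuous spectrum in the bulk at weak disorder follows from the interface TR3. -/
theorem finT : Fn3Stmt.{u} :=
  fn3 (Pool.Agent.ANE.H90.pr3 la3) (spc wey flt) Pool.Agent.AEN.H76.endT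

end Pool.Agent.ANE.H72
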