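import Pool.Agent.ANE.Stmts2
import Pool.Agent.Helper92_ANR.Ctp
import Pool.Agent.Helper72_ANR.GEQ
import Pool.Agent.Helper90_LQX.EGB

/-!
# ANE, row KEY: no solution in a good final state
-/

set_option autoImplicit false

open scoped BigOperators ComplexConjugate

noncomputable section

namespace Pool.Agent.ANE.H72

open Pool.Agent.ANR

section gen

variable {X : Type} [Fintype X] [DecidableEq X]

/-- the pairing -/
theorem pairing {H : Matrix X X ℝ} {κ : X → ℝ} (hN : Net H κ) {u : X → ℂ} {o : X}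
    (hu : ∀ x, opv H κ u x = if x = o then 1 else 0) (w f : X → ℝ)
    (hf : ∀ x, ∑ y, H x y * w y = f x) :
    (w o : ℂ) + Complex.I * ∑ x, ((κ x * w x : ℝ) : ℂ) * u x = ∑ x, ((f x : ℝ) : ℂ) * u x := by
  have h1 : ∑ x, (w x : ℂ) * ∑ y, (H x y : ℂ) * u y = ∑ x, ((f x : ℝ) : ℂ) * u x := by
    simp only [Finset.mul_sum]
    rw [Finset.sum_comm]
    refine Finset.sum_congr rfl fun y _ => ?_
    rw [← hf y, Complex.ofReal_sum, Finset.sum_mul]
    refine Finset.sum_congr rfl fun x _ => ?_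
    rw [hN.sym x y]
    push_cast
    ring
  rw [← h1]
  have h2 : ∀ x, ∑ y, (H x y : ℂ) * u y = (if x = o then 1 else 0) +
      Complex.I * (κ x : ℂ) * u x := by
    intro x
    rw [← hu x]
    unfold opv
    ring
  simp only [h2, mul_add, Finset.sum_add_distrib, mul_ite, mul_one, mul_zero,
    Finset.sum_ite_eq', Finset.mem_univ, if_true]
  congr 1
  rw [Finset.mul_sum]
  refine Finset.sum_congr rfl fun x _ => ?_
  push_cast
  ring

end gen

open Pool.Agent.Anderson hiding box mem_box card_box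
open Pool.Agent.Loc hiding nb
open Pool.Agent.BED Pool.Agent.LE.QD Pool.Agent.ANE

variable {d M : ℕ} [NeZero M]

theorem hv_apply (E : ℝ) (V w : Tor d M → ℝ) (x : Tor d M) :
    ∑ y, HV d M E V x y * w y =
      ∑ i : Fin d, (w (x + ev i) + w (x - ev i)) + (V x - E) * w x := by
  unfold HV
  simp only [Matrix.add_apply, add_mul, Finset.sum_add_distrib]
  congr 1
  · unfold adj
    simp only [Matrix.of_apply, Finset.sum_mul, add_mul]
    rw [Finset.sum_comm, ← Finset.sum_add_distrib]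
    refine Finset.sum_congr rfl fun i _ => ?_
    rw [Finset.sum_add_distrib]
    simp
  · simp [Matrix.diagonal_apply]

theorem adj_symm' (x y : Tor d M) : adj d M x y = adj d M y x := by
  unfold adj
  simp only [Matrix.of_apply]
  refine Finset.sum_congr rfl fun i _ => ?_
  rw [add_comm]
  congr 1
  · have : (y = x - ev i) ↔ (x = y + ev i) := by
      constructor
      · rintro rfl; abel
      · rintro rfl; abel
    simp only [this]
  · have : (y = x + ev i) ↔ (x = y - ev i) := by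
      constructor
      · rintro rfl; abel
      · rintro rfl; abel
    simp only [this]

theorem net_hv (E : ℝ) (V : Tor d M → ℝ) {κ : Tor d M → ℝ} (hκ : ∀ x, 0 < κ x) :
    Net (HV d M E V) κ := by
  refine ⟨fun x y => ?_, hκ⟩
  unfold HV
  rw [Matrix.add_apply, Matrix.add_apply, adj_symm' x y]
  congr 1
  by_cases h : x = y
  · rw [h]
  · rw [Matrix.diagonal_apply_ne _ h, Matrix.diagonal_apply_ne _ (Ne.symm h)]

theorem hv_ne {E : ℝ} {V : Tor d M → ℝ} {x y : Tor d M} (h : HV d M E V x y ≠ 0) :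
    x = y ∨ ∃ i : Fin d, y = x + ev i ∨ y = x - ev i := by
  by_contra hcon
  push Not at hcon
  obtain ⟨h1, h2⟩ := hcon
  apply h
  unfold HV adj
  rw [Matrix.add_apply, Matrix.diagonal_apply_ne _ h1, Matrix.of_apply, add_zero]
  refine Finset.sum_eq_zero fun i _ => ?_
  rw [if_neg (h2 i).1, if_neg (h2 i).2, add_zero]

theorem hv_row (E : ℝ) (V : Tor d M → ℝ) (x : Tor d M) :
    ∑ y, (if x = y then 0 else |HV d M E V x y|) ≤ 2 * d := by
  have h1 : ∀ y, (if x = y then 0 else |HV d M E V x y|) ≤ adj d M x y := by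
    intro y
    have h0 : 0 ≤ adj d M x y := by
      unfold adj
      rw [Matrix.of_apply]
      refine Finset.sum_nonneg fun i _ => ?_
      split_ifs <;> norm_num
    split_ifs with h
    · exact h0
    · unfold HV
      rw [Matrix.add_apply, Matrix.diagonal_apply_ne _ h, add_zero, abs_of_nonneg h0]
  refine (Finset.sum_le_sum fun y _ => h1 y).trans ?_
  unfold adj
  simp only [Matrix.of_apply]
  rw [Finset.sum_comm]
  calc _ = ∑ _i : Fin d, (2 : ℝ) := by
        refine Finset.sum_congr rfl fun i _ => ?_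
        rw [Finset.sum_add_distrib]
        simp
        norm_num
    _ ≤ 2 * d := by
        rw [Finset.sum_const, Finset.card_univ, Fintype.card_fin, nsmul_eq_mul]
        linarith

/-- Cauchy-Schwarz -/
theorem cs {X : Type} (s : Finset X) (f g : X → ℝ) {A B : ℝ} (hA : ∑ x ∈ s, f x ^ 2 ≤ A)
    (hB : ∑ x ∈ s, g x ^ 2 ≤ B) : ∑ x ∈ s, f x * g x ≤ Real.sqrt A * Real.sqrt B := by
  have hA0 : 0 ≤ A := (Finset.sum_nonneg fun x _ => sq_nonneg _).trans hA
  have hB0 : 0 ≤ B := (Finset.sum_nonneg fun x _ => sq_nonneg _).trans hB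
  rw [← Real.sqrt_mul hA0]
  refine Real.le_sqrt_of_sq_le ((Finset.sum_mul_sq_le_sq_mul_sq s f g).trans ?_)
  exact mul_le_mul hA hB (Finset.sum_nonneg fun x _ => sq_nonneg _) hA0

theorem key (hGEQ : GeqStmt) : KeyStmt := by
  classical
  intro d M _ E η δ A R U V κ Al ρ hη hη1 hδ hκ hκA h0A hρ0 hR hbond hdead hin hSol
  obtain ⟨v, hvA, hveq⟩ := hSol
  have hA0 : 0 ≤ A := (Finset.sum_nonneg fun x _ => sq_nonneg _).trans hvA
  have hN := net_hv E V hκ
  obtain ⟨g1, -, g3, g4, -⟩ := hGEQ (Tor d M) (HV d M E V) κ hN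
  obtain ⟨u, hu⟩ : ∃ u : Tor d M → ℂ, u = fun x => Gr (HV d M E V) κ x 0 := ⟨_, rfl⟩
  have hueq : ∀ x, opv (HV d M E V) κ u x = if x = 0 then 1 else 0 := by
    intro x
    rw [hu]
    exact g1 x 0
  have hward : ∑ x, κ x * ‖u x‖ ^ 2 = (u 0).im := by rw [hu]; exact g3 0
  have hu0 : (u 0).im ≤ 1 / η := by
    have h1 : κ 0 * ‖u 0‖ ≤ 1 := by rw [hu]; exact g4 0
    have h2 : (u 0).im ≤ ‖u 0‖ := (le_abs_self _).trans (Complex.abs_im_le_norm _)
    rw [le_div_iff₀ hη]
    have h3 := hκA 0 h0A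
    nlinarith [norm_nonneg (u 0)]
  have hI0 : 0 ≤ (u 0).im := by
    rw [← hward]
    exact Finset.sum_nonneg fun x _ => mul_nonneg (hκ x).le (by positivity)
  have hgoal : (Gr (HV d M E V) κ 0 0).im = (u 0).im := by rw [hu]
  rw [hgoal]
  -- the cutoff
  obtain ⟨χ, hχ⟩ : ∃ χ : Tor d M → ℝ, ∀ x, χ x = if ρ x < R then 1 else 0 := ⟨_, fun _ => rfl⟩
  have hχ0 : χ 0 = 1 := by rw [hχ, if_pos (by omega)]
  have hχ01 : ∀ x, 0 ≤ χ x ∧ χ x ≤ 1 := by
    intro x
    rw [hχ]
    split_ifs <;> norm_num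
  obtain ⟨w, hw⟩ : ∃ w : Tor d M → ℝ, ∀ x, w x = χ x * v x := ⟨_, fun _ => rfl⟩
  obtain ⟨r, hr⟩ : ∃ r : Tor d M → ℝ, ∀ x, r x = ∑ i : Fin d,
    ((χ (x + ev i) - χ x) * v (x + ev i) + (χ (x - ev i) - χ x) * v (x - ev i)) :=
    ⟨_, fun _ => rfl⟩
  obtain ⟨f, hf⟩ : ∃ f : Tor d M → ℝ, ∀ x, f x = (if x = 0 then 1 else 0) -
      χ x * ((U x - V x) * v x) + r x := ⟨_, fun _ => rfl⟩
  have hfeq : ∀ x, ∑ y, HV d M E V x y * w y = f x := by
    intro x
    rw [hv_apply, hf, hw x]
    have e1 : ∑ i : Fin d, (w (x + ev i) + w (x - ev i)) =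
        χ x * ∑ i : Fin d, (v (x + ev i) + v (x - ev i)) + r x := by
      rw [hr, Finset.mul_sum, ← Finset.sum_add_distrib]
      refine Finset.sum_congr rfl fun i _ => ?_
      rw [hw, hw]
      ring
    rw [e1]
    by_cases h : ρ x < R
    · have h1 := hveq x (hin x h).1
      have h2 : χ x = 1 := by rw [hχ, if_pos h]
      rw [h2, ← h1]
      ring
    · have h2 : χ x = 0 := by rw [hχ, if_neg h]
      have h3 : x ≠ 0 := by
        rintro rfl
        apply h
        omega
      rw [h2, if_neg h3]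
      ring
  have hpair := pairing hN hueq w f hfeq
  -- the errors
  obtain ⟨E1, hE1⟩ : ∃ E1 : ℂ, E1 = ∑ x, ((χ x * ((U x - V x) * v x) : ℝ) : ℂ) * u x := ⟨_, rfl⟩
  obtain ⟨E2, hE2⟩ : ∃ E2 : ℂ, E2 = ∑ x, ((r x : ℝ) : ℂ) * u x := ⟨_, rfl⟩
  have hfu : ∑ x, ((f x : ℝ) : ℂ) * u x = u 0 - E1 + E2 := by
    rw [hE1, hE2]
    have h1 : u 0 = ∑ x : Tor d M, (if x = 0 then (1 : ℂ) else 0) * u x := by simp
    rw [h1, ← Finset.sum_sub_distrib, ← Finset.sum_add_distrib]
    refine Finset.sum_congr rfl fun x _ => ?_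
    rw [hf]
    split_ifs <;> (push_cast; ring)
  have him : (u 0).im ≤ ‖∑ x, ((κ x * w x : ℝ) : ℂ) * u x‖ + ‖E1‖ + ‖E2‖ := by
    rw [hfu] at hpair
    have h1 := congrArg Complex.im hpair
    rw [Complex.add_im, Complex.add_im, Complex.sub_im, Complex.ofReal_im, Complex.mul_im,
      Complex.I_re, Complex.I_im] at h1
    have h2 := (le_abs_self _).trans (Complex.abs_re_le_norm (∑ x, ((κ x * w x : ℝ) : ℂ) * u x))
    have h3 := (le_abs_self _).trans (Complex.abs_im_le_norm E1)
    have h4 := (neg_le_abs _).trans (Complex.abs_im_le_norm E2)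
    linarith
  -- the main term
  have hmain : ‖∑ x, ((κ x * w x : ℝ) : ℂ) * u x‖ ≤ η * A + (u 0).im / 2 := by
    have h1 : ‖∑ x, ((κ x * w x : ℝ) : ℂ) * u x‖ ≤
        ∑ x, (Real.sqrt (κ x) * |w x|) * (Real.sqrt (κ x) * ‖u x‖) := by
      refine (norm_sum_le _ _).trans (Finset.sum_le_sum fun x _ => ?_)
      rw [norm_mul, Complex.norm_real, Real.norm_eq_abs, abs_mul, abs_of_pos (hκ x)]
      refine le_of_eq ?_
      have h2 := Real.mul_self_sqrt (hκ x).le
      calc κ x * |w x| * ‖u x‖ = (Real.sqrt (κ x) * Real.sqrt (κ x)) * |w x| * ‖u x‖ := by rw [h2]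
        _ = _ := by ring
    have h2 : ∑ x, (Real.sqrt (κ x) * |w x|) ^ 2 ≤ 2 * η * A := by
      calc ∑ x, (Real.sqrt (κ x) * |w x|) ^ 2 ≤ ∑ x, 2 * η * v x ^ 2 := by
            refine Finset.sum_le_sum fun x _ => ?_
            rw [mul_pow, Real.sq_sqrt (hκ x).le, sq_abs, hw, hχ]
            split_ifs with h
            · rw [one_mul]
              exact mul_le_mul_of_nonneg_right (hin x h).2.1 (sq_nonneg _)
            · rw [zero_mul]
              have : 0 ≤ 2 * η * v x ^ 2 := by positivity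
              simpa using this
        _ = 2 * η * ∑ x, v x ^ 2 := by rw [Finset.mul_sum]
        _ ≤ 2 * η * A := by gcongr
    have h3 : ∑ x, (Real.sqrt (κ x) * ‖u x‖) ^ 2 ≤ (u 0).im := by
      rw [← hward]
      refine Finset.sum_le_sum fun x _ => ?_
      rw [mul_pow, Real.sq_sqrt (hκ x).le]
    have h4 := cs Finset.univ _ _ h2 h3
    have h5 := Real.sq_sqrt (show 0 ≤ 2 * η * A by positivity)
    have h6 := Real.sq_sqrt hI0
    nlinarith [sq_nonneg (Real.sqrt (2 * η * A) - Real.sqrt (u 0).im)]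
  -- the first error
  have herr1 : ‖E1‖ ≤ δ * Real.sqrt A / η := by
    have h1 : ‖E1‖ ≤ δ * ∑ x ∈ Al, |v x| * ‖u x‖ := by
      rw [hE1, Finset.mul_sum]
      refine (norm_sum_le _ _).trans ?_
      rw [← Finset.sum_subset (Finset.subset_univ Al)]
      · refine Finset.sum_le_sum fun x hx => ?_
        rw [norm_mul, Complex.norm_real, Real.norm_eq_abs]
        have hh : |χ x * ((U x - V x) * v x)| ≤ δ * |v x| := by
          rw [hχ]
          split_ifs with h
          · rw [one_mul, abs_mul]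
            exact mul_le_mul_of_nonneg_right ((hin x h).2.2.1 hx) (abs_nonneg _)
          · rw [zero_mul, abs_zero]
            positivity
        calc |χ x * ((U x - V x) * v x)| * ‖u x‖ ≤ δ * |v x| * ‖u x‖ :=
              mul_le_mul_of_nonneg_right hh (norm_nonneg _)
          _ = _ := by ring
      · intro x _ hx
        rw [hχ]
        split_ifs with h
        · rw [(hin x h).2.2.2 hx]
          simp
        · simp
    have h2 : ∑ x ∈ Al, |v x| ^ 2 ≤ A := by
      simp only [sq_abs]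
      exact (Finset.sum_le_sum_of_subset_of_nonneg (Finset.subset_univ Al)
        fun x _ _ => sq_nonneg _).trans hvA
    have h3 : ∑ x ∈ Al, ‖u x‖ ^ 2 ≤ (1 / η) ^ 2 := by
      have h4 : η * ∑ x ∈ Al, ‖u x‖ ^ 2 ≤ (u 0).im := by
        rw [← hward, Finset.mul_sum]
        refine le_trans (Finset.sum_le_sum (g := fun x => κ x * ‖u x‖ ^ 2) fun x hx => ?_) ?_
        · exact mul_le_mul_of_nonneg_right (hκA x hx) (by positivity)
        · exact Finset.sum_le_sum_of_subset_of_nonneg (Finset.subset_univ Al)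
            fun x _ _ => mul_nonneg (hκ x).le (by positivity)
      have h5 := h4.trans hu0
      calc ∑ x ∈ Al, ‖u x‖ ^ 2 = (1 / η) * (η * ∑ x ∈ Al, ‖u x‖ ^ 2) := by
            field_simp
        _ ≤ (1 / η) * (1 / η) := by gcongr
        _ = (1 / η) ^ 2 := by ring
    have h4 := cs Al _ _ h2 h3
    rw [Real.sqrt_sq (by positivity)] at h4
    calc ‖E1‖ ≤ δ * ∑ x ∈ Al, |v x| * ‖u x‖ := h1
      _ ≤ δ * (Real.sqrt A * (1 / η)) := by gcongr
      _ = _ := by ring
  -- the second error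
  obtain ⟨a, ha⟩ : ∃ a : ℝ, a = η / (8 * (d + 1)) := ⟨_, rfl⟩
  have ha0 : 0 ≤ a := by rw [ha]; positivity
  have hd0 : (0 : ℝ) ≤ d := Nat.cast_nonneg d
  have ha1 : a ≤ 1 := by
    rw [ha, div_le_one (by positivity)]
    linarith
  have haη : a * (8 * (d + 1)) = η := by
    rw [ha]
    field_simp
  have hux : ∀ x ∈ Al, R ≤ ρ x + 1 → ‖u x‖ ≤ 2 / η * Real.exp (-(a * (R - 1))) := by
    intro x hx hRx
    have h1 := Pool.Agent.ANR.H92.rng (ρ := fun x => (ρ x : ℝ)) (A := (Al : Set (Tor d M)))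
      (D := 2 * d) (κ₀ := η) (a := a) hN ha0 ha1 (by nlinarith)
      (fun x _ => hv_row E V x) (fun x hx => hκA x hx)
      (by
        intro x y hxy
        rcases hv_ne hxy with h | ⟨i, h | h⟩
        · rw [h]
          simp
        · rw [h, abs_le]
          have h2 := hbond x i
          have h3 : ((ρ (x + ev i) : ℕ) : ℝ) ≤ ρ x + 1 := by exact_mod_cast h2.1
          have h4 : ((ρ x : ℕ) : ℝ) ≤ ρ (x + ev i) + 1 := by exact_mod_cast h2.2
          constructor <;> linarith
        · rw [h, abs_le]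
          have h2 := hbond (x - ev i) i
          rw [sub_add_cancel] at h2
          have h3 : ((ρ x : ℕ) : ℝ) ≤ ρ (x - ev i) + 1 := by exact_mod_cast h2.1
          have h4 : ((ρ (x - ev i) : ℕ) : ℝ) ≤ ρ x + 1 := by exact_mod_cast h2.2
          constructor <;> linarith)
      (by
        intro x y hx hxy
        have hx' : x ∉ Al := fun h => hx (Finset.mem_coe.2 h)
        rcases hv_ne hxy with h | ⟨i, h | h⟩
        · rw [h]
        · have h2 := hdead x i (Or.inl hx')
          rw [h]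
          simp only [h2]
        · have h2 := hdead (x - ev i) i (Or.inr (by rwa [sub_add_cancel]))
          rw [sub_add_cancel] at h2
          rw [h]
          simp only [h2])
      hueq x
    simp only [hρ0, Nat.cast_zero, sub_zero] at h1
    rw [abs_of_nonneg (Nat.cast_nonneg (ρ x))] at h1
    have h2 : η * η * ‖u x‖ ^ 2 ≤ κ x * κ 0 * ‖u x‖ ^ 2 := by
      have t1 := hκA x hx
      have t2 := hκA 0 h0A
      have t3 := (hκ x).le
      gcongr
    have h3 : Real.exp (-(2 * a * ρ x)) ≤ Real.exp (-(a * (R - 1))) ^ 2 := by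
      rw [← Real.exp_nat_mul]
      apply Real.exp_le_exp.2
      have h4 : (R : ℝ) ≤ ρ x + 1 := by exact_mod_cast hRx
      push_cast
      nlinarith
    have h4 : ‖u x‖ ^ 2 ≤ (2 / η * Real.exp (-(a * (R - 1)))) ^ 2 := by
      rw [mul_pow, div_pow, div_mul_eq_mul_div, le_div_iff₀ (by positivity)]
      nlinarith
    exact (le_abs_self _).trans (abs_le_of_sq_le_sq h4 (by positivity))
  obtain ⟨τ, hτ⟩ : ∃ τ : ℝ, τ = 2 / η * Real.exp (-(a * (R - 1))) := ⟨_, rfl⟩
  have hτ0 : 0 ≤ τ := by rw [hτ]; positivity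
  have hterm : ∀ x y : Tor d M, (∃ i : Fin d, y = x + ev i ∨ y = x - ev i) →
      |(χ y - χ x) * v y| * ‖u x‖ ≤ τ * |v y| := by
    rintro x y ⟨i, hy⟩
    rw [abs_mul]
    by_cases h : χ y = χ x
    · rw [h, sub_self, abs_zero, zero_mul, zero_mul]
      positivity
    · have h1 : ρ y ≠ ρ x := by
        intro h2
        apply h
        rw [hχ, hχ, h2]
      have h2 : x ∈ Al ∧ (ρ y ≤ ρ x + 1 ∧ ρ x ≤ ρ y + 1) := by
        rcases hy with hy | hy
        · have h3 := hbond x i
          rw [← hy] at h3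
          refine ⟨?_, h3⟩
          by_contra h4
          have h5 := hdead x i (Or.inl h4)
          rw [← hy] at h5
          exact h1 h5
        · have h3 := hbond y i
          have h6 : y + ev i = x := by rw [hy]; abel
          rw [h6] at h3
          refine ⟨?_, h3.2, h3.1⟩
          by_contra h4
          have h5 := hdead y i (Or.inr (by rw [h6]; exact h4))
          rw [h6] at h5
          exact h1 h5.symm
      have h3 : R ≤ ρ x + 1 := by
        by_contra h4
        apply h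
        rw [hχ, hχ, if_pos (by omega), if_pos (by omega)]
      have h4 := hux x h2.1 h3
      rw [← hτ] at h4
      have h5 : |χ y - χ x| ≤ 1 := by
        rw [abs_le]
        have a1 := hχ01 x
        have a2 := hχ01 y
        constructor <;> linarith
      calc |χ y - χ x| * |v y| * ‖u x‖ ≤ 1 * |v y| * τ := by gcongr
        _ = _ := by ring
  have herr2 : ‖E2‖ ≤ τ * (2 * d * Real.sqrt ((M : ℝ) ^ d * A)) := by
    have h1 : ‖E2‖ ≤ ∑ x, ∑ i : Fin d, (τ * |v (x + ev i)| + τ * |v (x - ev i)|) := by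
      rw [hE2]
      refine (norm_sum_le _ _).trans (Finset.sum_le_sum fun x _ => ?_)
      rw [norm_mul, Complex.norm_real, Real.norm_eq_abs, hr]
      refine (mul_le_mul_of_nonneg_right (Finset.abs_sum_le_sum_abs _ _) (norm_nonneg _)).trans ?_
      rw [Finset.sum_mul]
      refine Finset.sum_le_sum fun i _ => ?_
      refine (mul_le_mul_of_nonneg_right (abs_add_le _ _) (norm_nonneg _)).trans ?_
      rw [add_mul]
      exact add_le_add (hterm x (x + ev i) ⟨i, Or.inl rfl⟩) (hterm x (x - ev i) ⟨i, Or.inr rfl⟩)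
    have h2 : ∑ x, ∑ i : Fin d, (τ * |v (x + ev i)| + τ * |v (x - ev i)|) =
        τ * (2 * d * ∑ x, |v x|) := by
      rw [Finset.sum_comm]
      have h3 : ∀ i : Fin d, ∑ x, (τ * |v (x + ev i)| + τ * |v (x - ev i)|) =
          2 * τ * ∑ x, |v x| := by
        intro i
        rw [Finset.sum_add_distrib, ← Finset.mul_sum, ← Finset.mul_sum]
        have h4 : ∑ x, |v (x + ev i)| = ∑ x, |v x| :=
          Equiv.sum_comp (Equiv.addRight (ev i : Tor d M)) fun x => |v x|
        have h5 : ∑ x, |v (x - ev i)| = ∑ x, |v x| :=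
          Equiv.sum_comp (Equiv.subRight (ev i : Tor d M)) fun x => |v x|
        rw [h4, h5]
        ring
      rw [Finset.sum_congr rfl fun i _ => h3 i, Finset.sum_const, Finset.card_univ,
        Fintype.card_fin, nsmul_eq_mul]
      ring
    have h3 : ∑ x : Tor d M, |v x| ≤ Real.sqrt ((M : ℝ) ^ d * A) := by
      have h4 : ∑ _x : Tor d M, (1 : ℝ) ^ 2 ≤ (M : ℝ) ^ d := by
        rw [Finset.sum_const, Finset.card_univ, nsmul_eq_mul, one_pow, mul_one]
        refine le_of_eq ?_
        have : Fintype.card (Tor d M) = M ^ d := by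
          unfold Tor
          rw [Fintype.card_fun, ZMod.card, Fintype.card_fin]
        rw [this]
        push_cast
        ring
      have h5 : ∑ x : Tor d M, |v x| ^ 2 ≤ A := by simpa only [sq_abs] using hvA
      have h6 := cs Finset.univ (fun _ => (1 : ℝ)) (fun x => |v x|) h4 h5
      rw [← Real.sqrt_mul (by positivity)] at h6
      simpa only [one_mul] using h6
    rw [h2] at h1
    refine h1.trans ?_
    gcongr
  have hfin : 2 * (τ * (2 * d * Real.sqrt ((M : ℝ) ^ d * A))) =
      8 * d / η * Real.sqrt ((M : ℝ) ^ d * A) * Real.exp (-(η * (R - 1) / (8 * (d + 1)))) := by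
    rw [hτ, ha]
    have h1 : η / (8 * ((d : ℝ) + 1)) * (R - 1) = η * (R - 1) / (8 * (d + 1)) := by ring
    rw [h1]
    ring
  rw [← hfin]
  have h7 : 2 * δ * Real.sqrt A / η = 2 * (δ * Real.sqrt A / η) := by ring
  rw [h7]
  linarith

end Pool.Agent.ANE.H72
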