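import Pool.Agent.ANE.Stmts2
import Pool.Agent.Helper90_LQX.EGB

/-!
# ANE, row LAT: from the lattice to the torus
-/

set_option autoImplicit false

open MeasureTheory ProbabilityTheory Function Filter

open scoped ENNReal BigOperators InnerProductSpace Topology NNReal

noncomputable section

namespace Pool.Agent.ANE.H72

open Pool.Agent.Anderson hiding box mem_box card_box
open Pool.Agent.Loc Pool.Agent.Mob Pool.Agent.Helper54.Bal
  Pool.Agent.Helper96.EXP Pool.Agent.BED
open Pool.Agent.LE.MN Pool.Agent.LE.CL Pool.Agent.LE.IR Pool.Agent.LE.QD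
open Pool.Agent.LE.QX.H90 Pool.Agent.ANE

variable {d : ℕ}

/-- a weak limit of the Green vectors -/
theorem limit_sol (V : Site d → ℝ) (E C : ℝ) (h : ∀ n, ‖Pool.Agent.AEN.Gn V E n 0‖ ≤ C) :
    ∃ w : Site d → ℝ, (∀ S : Finset (Site d), ∑ y ∈ S, w y ^ 2 ≤ C ^ 2) ∧
      ∀ y, ∑ i : Fin d, (w (y + Pi.single i 1) + w (y - Pi.single i 1)) + (V y - E) * w y =
        if y = 0 then 1 else 0 := by
  obtain ⟨g, hg⟩ : ∃ g : ℕ → L2 d, g = fun n => Pool.Agent.AEN.Gn V E n 0 := ⟨_, rfl⟩
  have hC : ∀ n, ‖g n‖ ≤ C := fun n => by rw [hg]; exact h n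
  have hpt : ∀ y, ∃ c : ℂ, Tendsto (fun n => g n y) (hyperfilter ℕ : Filter ℕ) (𝓝 c) := by
    intro y
    have h1 : ∀ n, g n y ∈ Metric.closedBall (0 : ℂ) C := by
      intro n
      rw [mem_closedBall_zero_iff]
      exact (lp.norm_apply_le_norm (by norm_num) _ _).trans (hC n)
    obtain ⟨c, -, hc⟩ := (isCompact_closedBall (0 : ℂ) C).ultrafilter_le_nhds
      ((hyperfilter ℕ).map fun n => g n y) (by
        rw [le_principal_iff]
        exact Filter.mem_map.2 (Filter.Eventually.of_forall h1))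
    exact ⟨c, hc⟩
  choose v hv using hpt
  have hz : Tendsto (fun n => Pool.Agent.AEN.zn E n) (hyperfilter ℕ : Filter ℕ) (𝓝 (E : ℂ)) := by
    have h1 : Tendsto (fun n => Pool.Agent.AEN.et n) (hyperfilter ℕ : Filter ℕ) (𝓝 0) :=
      Pool.Agent.AEN.tendsto_et.mono_left Nat.hyperfilter_le_atTop
    have h2 : Tendsto (fun n => (E : ℂ) + ((Pool.Agent.AEN.et n : ℝ) : ℂ) * Complex.I)
        (hyperfilter ℕ : Filter ℕ) (𝓝 ((E : ℂ) + ((0 : ℝ) : ℂ) * Complex.I)) :=
      (((Complex.continuous_ofReal.tendsto 0).comp h1).mul_const _).const_add _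
    simp only [Complex.ofReal_zero, zero_mul, add_zero] at h2
    exact h2
  have heq : ∀ y, lap v y + ((V y : ℂ) - E) * v y = if y = 0 then 1 else 0 := by
    intro y
    have h1 : ∀ n, lap (g n) y + ((V y : ℂ) - Pool.Agent.AEN.zn E n) * g n y =
        if y = 0 then 1 else 0 := by
      intro n
      have h2 := G_eq (V := V) (Pool.Agent.AEN.zn_im_ne E n) (del (0 : Site d)) y
      rw [del_apply] at h2
      rw [hg]
      exact h2
    have h3 : Tendsto (fun n => lap (g n) y + ((V y : ℂ) - Pool.Agent.AEN.zn E n) * g n y)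
        (hyperfilter ℕ : Filter ℕ) (𝓝 (lap v y + ((V y : ℂ) - E) * v y)) := by
      refine Tendsto.add ?_ ((hz.const_sub _).mul (hv y))
      unfold lap
      exact tendsto_finsetSum _ fun i _ => (hv _).add (hv _)
    simp only [h1] at h3
    exact tendsto_nhds_unique h3 tendsto_const_nhds
  refine ⟨fun y => (v y).re, ?_, ?_⟩
  · intro S
    have h1 : ∀ n, ∑ y ∈ S, ‖g n y‖ ^ 2 ≤ C ^ 2 := by
      intro n
      have h2 : ∑ y ∈ S, ‖g n y‖ ^ 2 ≤ ‖g n‖ ^ 2 := by
        rw [L2.norm_sq]
        exact (L2.summable_sq (g n)).sum_le_tsum S fun y _ => by positivity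
      exact h2.trans (pow_le_pow_left₀ (norm_nonneg _) (hC n) 2)
    have h3 : Tendsto (fun n => ∑ y ∈ S, ‖g n y‖ ^ 2) (hyperfilter ℕ : Filter ℕ)
        (𝓝 (∑ y ∈ S, ‖v y‖ ^ 2)) :=
      tendsto_finsetSum _ fun y _ => (hv y).norm.pow 2
    have h4 : ∑ y ∈ S, ‖v y‖ ^ 2 ≤ C ^ 2 := le_of_tendsto h3 (Eventually.of_forall h1)
    refine le_trans (Finset.sum_le_sum fun y _ => ?_) h4
    rw [← sq_abs]
    exact pow_le_pow_left₀ (abs_nonneg _) (Complex.abs_re_le_norm _) 2
  · intro y
    have h1 := congrArg Complex.re (heq y)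
    rw [Complex.add_re] at h1
    have h2 : (lap v y).re = ∑ i : Fin d, ((v (y + Pi.single i 1)).re +
        (v (y - Pi.single i 1)).re) := by
      unfold lap
      rw [Complex.re_sum]
      exact Finset.sum_congr rfl fun i _ => Complex.add_re _ _
    have h3 : (((V y : ℂ) - E) * v y).re = (V y - E) * (v y).re := by
      rw [← Complex.ofReal_sub, Complex.re_ofReal_mul]
    rw [h2, h3] at h1
    simp only
    rw [h1]
    split_ifs <;> simp

theorem lat : LatStmt := by
  classical
  intro d M _ V E C hM h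
  obtain ⟨w, hw1, hw2⟩ := limit_sol V E C h
  refine ⟨fun x => w (rep x), ?_, ?_⟩
  · have h1 := hw1 (Finset.univ.image (rep : Tor d M → Site d))
    rwa [Finset.sum_image (fun x _ y _ hxy => rep_inj hxy)] at h1
  · intro x hx
    have e1 : ∀ i, rep (x + ev i) = rep x + Pi.single i 1 :=
      rep_add (R := sd 0 (rep x)) (by omega) le_rfl
    have e2 : ∀ i, rep (x - ev i) = rep x - Pi.single i 1 :=
      rep_sub (R := sd 0 (rep x)) (by omega) le_rfl
    have h1 := hw2 (rep x)
    simp only [e1, e2]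
    rw [h1]
    have h2 : (rep x = 0) ↔ (x = 0) := by
      constructor
      · intro h
        apply rep_inj
        rw [h]
        funext i
        unfold rep
        simp
      · rintro rfl
        funext i
        unfold rep
        simp
    simp only [h2]

end Pool.Agent.ANE.H72
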