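import Pool.Agent.ANE.Stmts3
import Pool.Agent.Helper72_ANE.Key
import Pool.Agent.Helper72_ANE.Lat
import Pool.Agent.Helper76_AEN.All
import Pool.Agent.Helper42_Mob.Fin

/-!
# ANE, rows OUT, LA3, FN3: the end without `η`
-/

set_option autoImplicit false

open MeasureTheory ProbabilityTheory Function Filter

open scoped ENNReal BigOperators InnerProductSpace Topology NNReal

noncomputable section

namespace Pool.Agent.ANE.H72

open Pool.Agent.ANR
open Pool.Agent.Anderson hiding box mem_box card_box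
open Pool.Agent.Loc hiding nb
open Pool.Agent.Helper54.Bal
open Pool.Agent.BED Pool.Agent.LE.QD Pool.Agent.ANE
open Pool.Agent.LE.QX.H90

universe u

theorem cs_abs {X : Type} (s : Finset X) (f g : X → ℝ) {A B : ℝ} (hB : 0 ≤ B)
    (h1 : ∑ x ∈ s, f x ^ 2 ≤ A) (h2 : ∑ x ∈ s, g x ^ 2 ≤ B ^ 2) :
    ∑ x ∈ s, |f x| * |g x| ≤ Real.sqrt A * B := by
  have h3 := cs s (fun x => |f x|) (fun x => |g x|) (by simpa only [sq_abs] using h1)
    (by simpa only [sq_abs] using h2)
  rwa [Real.sqrt_sq hB] at h3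

theorem out (hGEQ : GeqStmt) : OutStmt := by
  classical
  intro d M _ E A e κ₁ lam P Q W R U V κ χ Al he hlam hP hQ hW hκ hχ0 hχ01 hχs hχl hχd hUV hPs hQs
    hWs hSol
  obtain ⟨v, hvA, hve, hveq⟩ := hSol
  have hA0 : 0 ≤ A := (Finset.sum_nonneg fun x _ => sq_nonneg _).trans hvA
  have hN := net_hv E V (fun x => (hκ x).1)
  obtain ⟨g1, -, g3, -, -⟩ := hGEQ (Tor d M) (HV d M E V) κ hN
  obtain ⟨u, hu⟩ : ∃ u : Tor d M → ℂ, ∀ x, u x = Gr (HV d M E V) κ x 0 := ⟨_, fun _ => rfl⟩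
  have hueq : ∀ x, opv (HV d M E V) κ u x = if x = 0 then 1 else 0 := by
    intro x
    have : u = fun x => Gr (HV d M E V) κ x 0 := funext hu
    rw [this]
    exact g1 x 0
  have hward : ∑ x, κ x * ‖u x‖ ^ 2 = (u 0).im := by
    simp only [hu]
    exact g3 0
  simp only [← hu] at hPs hQs hWs
  have hI0 : 0 ≤ (u 0).im := by
    rw [← hward]
    exact Finset.sum_nonneg fun x _ => mul_nonneg (hκ x).1.le (by positivity)
  rw [← hu]
  obtain ⟨w, hw⟩ : ∃ w : Tor d M → ℝ, ∀ x, w x = χ x * v x := ⟨_, fun _ => rfl⟩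
  obtain ⟨r, hr⟩ : ∃ r : Tor d M → ℝ, ∀ x, r x = ∑ i : Fin d,
    ((χ (x + ev i) - χ x) * v (x + ev i) + (χ (x - ev i) - χ x) * v (x - ev i)) :=
    ⟨_, fun _ => rfl⟩
  obtain ⟨f, hf⟩ : ∃ f : Tor d M → ℝ, ∀ x, f x = (if x = 0 then 1 else 0) -
      χ x * ((U x - V x) * v x) + r x := ⟨_, fun _ => rfl⟩
  have hfeq : ∀ x, ∑ y, HV d M E V x y * w y = f x := by
    intro x
    rw [hv_apply, hf, hw x]
    have e1 : ∑ i : Fin d, (w (x + ev i) + w (x - ev i)) =
        χ x * ∑ i : Fin d, (v (x + ev i) + v (x - ev i)) + r x := by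
      rw [hr, Finset.mul_sum, ← Finset.sum_add_distrib]
      refine Finset.sum_congr rfl fun i _ => ?_
      rw [hw, hw]
      ring
    rw [e1]
    by_cases h : χ x = 0
    · have h3 : x ≠ 0 := by
        rintro rfl
        rw [hχ0] at h
        exact one_ne_zero h
      rw [h, if_neg h3]
      ring
    · have h1 := hveq x (hχs x h)
      have h2 : χ x * (if x = 0 then (1 : ℝ) else 0) = if x = 0 then 1 else 0 := by
        split_ifs with h0
        · rw [h0, hχ0, mul_one]
        · rw [mul_zero]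
      rw [← h2, ← h1]
      ring
  have hpair := pairing hN hueq w f hfeq
  obtain ⟨E1, hE1⟩ : ∃ E1 : ℂ, E1 = ∑ x, ((χ x * ((U x - V x) * v x) : ℝ) : ℂ) * u x := ⟨_, rfl⟩
  obtain ⟨E2, hE2⟩ : ∃ E2 : ℂ, E2 = ∑ x, ((r x : ℝ) : ℂ) * u x := ⟨_, rfl⟩
  have hfu : ∑ x, ((f x : ℝ) : ℂ) * u x = u 0 - E1 + E2 := by
    rw [hE1, hE2]
    have h1 : u 0 = ∑ x : Tor d M, (if x = 0 then (1 : ℂ) else 0) * u x := by simp
    rw [h1, ← Finset.sum_sub_distrib, ← Finset.sum_add_distrib]
    refine Finset.sum_congr rfl fun x _ => ?_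
    rw [hf]
    split_ifs <;> (push_cast; ring)
  have him : (u 0).im ≤ ‖∑ x, ((κ x * w x : ℝ) : ℂ) * u x‖ + ‖E1‖ + ‖E2‖ := by
    rw [hfu] at hpair
    have h1 := congrArg Complex.im hpair
    rw [Complex.add_im, Complex.add_im, Complex.sub_im, Complex.ofReal_im, Complex.mul_im,
      Complex.I_re, Complex.I_im] at h1
    have h2 := (le_abs_self _).trans (Complex.abs_re_le_norm (∑ x, ((κ x * w x : ℝ) : ℂ) * u x))
    have h3 := (le_abs_self _).trans (Complex.abs_im_le_norm E1)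
    have h4 := (neg_le_abs _).trans (Complex.abs_im_le_norm E2)
    linarith
  have hκ10 : 0 ≤ κ₁ := (hκ 0).1.le.trans (hκ 0).2
  have hwv : ∀ x, w x ^ 2 ≤ v x ^ 2 := by
    intro x
    rw [hw, mul_pow]
    have h1 := hχ01 x
    have h2 : χ x ^ 2 ≤ 1 := by nlinarith [h1.1, h1.2]
    nlinarith [sq_nonneg (v x)]
  -- the main term
  have hmain : ‖∑ x, ((κ x * w x : ℝ) : ℂ) * u x‖ ≤ (κ₁ * A + (u 0).im) / 2 := by
    have h1 : ‖∑ x, ((κ x * w x : ℝ) : ℂ) * u x‖ ≤
        ∑ x, (Real.sqrt (κ x) * |w x|) * (Real.sqrt (κ x) * ‖u x‖) := by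
      refine (norm_sum_le _ _).trans (Finset.sum_le_sum fun x _ => ?_)
      rw [norm_mul, Complex.norm_real, Real.norm_eq_abs, abs_mul, abs_of_pos (hκ x).1]
      refine le_of_eq ?_
      have h2 := Real.mul_self_sqrt (hκ x).1.le
      calc κ x * |w x| * ‖u x‖ = (Real.sqrt (κ x) * Real.sqrt (κ x)) * |w x| * ‖u x‖ := by rw [h2]
        _ = _ := by ring
    have h2 : ∑ x, (Real.sqrt (κ x) * |w x|) ^ 2 ≤ κ₁ * A := by
      calc ∑ x, (Real.sqrt (κ x) * |w x|) ^ 2 ≤ ∑ x, κ₁ * v x ^ 2 := by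
            refine Finset.sum_le_sum fun x _ => ?_
            rw [mul_pow, Real.sq_sqrt (hκ x).1.le, sq_abs]
            exact mul_le_mul (hκ x).2 (hwv x) (sq_nonneg _) hκ10
        _ = κ₁ * ∑ x, v x ^ 2 := by rw [Finset.mul_sum]
        _ ≤ κ₁ * A := by gcongr
    have h3 : ∑ x, (Real.sqrt (κ x) * ‖u x‖) ^ 2 ≤ (u 0).im := by
      rw [← hward]
      refine Finset.sum_le_sum fun x _ => ?_
      rw [mul_pow, Real.sq_sqrt (hκ x).1.le]
    have h4 := cs Finset.univ _ _ h2 h3
    have h5 := Real.sq_sqrt (show 0 ≤ κ₁ * A by positivity)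
    have h6 := Real.sq_sqrt hI0
    nlinarith [sq_nonneg (Real.sqrt (κ₁ * A) - Real.sqrt (u 0).im)]
  -- the first error
  obtain ⟨D, hD⟩ : ∃ D : Tor d M → ℝ, ∀ x, D x = (U x - V x) * ‖u x‖ := ⟨_, fun _ => rfl⟩
  have herr1 : ‖E1‖ ≤ Real.sqrt A * P + e * Q := by
    have h1 : ‖E1‖ ≤ ∑ x ∈ Al, |v x| * |D x| := by
      rw [hE1]
      refine (norm_sum_le _ _).trans ?_
      rw [← Finset.sum_subset (Finset.subset_univ Al)]
      · refine Finset.sum_le_sum fun x hx => ?_
        rw [norm_mul, Complex.norm_real, Real.norm_eq_abs, hD, abs_mul, abs_mul, abs_mul,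
          abs_of_nonneg (norm_nonneg (u x)), abs_of_nonneg (hχ01 x).1]
        calc χ x * (|U x - V x| * |v x|) * ‖u x‖ ≤ 1 * (|U x - V x| * |v x|) * ‖u x‖ := by
              have := (hχ01 x).2
              gcongr
          _ = _ := by ring
      · intro x _ hx
        by_cases h : χ x = 0
        · rw [h]
          simp
        · rw [hUV x hx h]
          simp
    rw [← Finset.sum_filter_add_sum_filter_not Al (fun x => sd 0 (rep x) ≤ R)] at h1
    have h2 : ∑ x ∈ Al.filter (fun x => sd 0 (rep x) ≤ R), |v x| * |D x| ≤ Real.sqrt A * P := by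
      refine cs_abs _ v D hP ?_ ?_
      · exact (Finset.sum_le_sum_of_subset_of_nonneg (Finset.subset_univ _)
          fun x _ _ => sq_nonneg _).trans hvA
      · simp only [hD, mul_pow]
        exact hPs
    have h3 : ∑ x ∈ Al.filter (fun x => ¬ sd 0 (rep x) ≤ R), |v x| * |D x| ≤ e * Q := by
      have h4 := cs_abs (Al.filter (fun x => ¬ sd 0 (rep x) ≤ R)) v D (A := e ^ 2) hQ ?_ ?_
      · rwa [Real.sqrt_sq he] at h4
      · refine le_trans ?_ hve
        rw [← Finset.sum_filter]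
        refine Finset.sum_le_sum_of_subset_of_nonneg ?_ fun x _ _ => sq_nonneg _
        intro x hx
        rw [Finset.mem_filter] at hx ⊢
        exact ⟨Finset.mem_univ _, not_le.1 hx.2⟩
      · refine le_trans ?_ hQs
        simp only [hD, mul_pow]
        exact Finset.sum_le_sum_of_subset_of_nonneg (Finset.filter_subset _ _)
          fun x _ _ => by positivity
    linarith
  -- the second error
  have hterm : ∀ x y : Tor d M, (∃ i : Fin d, y = x + ev i ∨ y = x - ev i) →
      |(χ y - χ x) * v y| * ‖u x‖ ≤ if x ∈ Al then lam * (|v y| * |‖u x‖|) else 0 := by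
    rintro x y ⟨i, hy⟩
    rw [abs_mul, abs_of_nonneg (norm_nonneg (u x))]
    by_cases hx : x ∈ Al
    · rw [if_pos hx]
      have h5 : |χ y - χ x| ≤ lam := by
        rcases hy with hy | hy
        · rw [hy]
          exact hχl x i
        · have h6 : y + ev i = x := by rw [hy]; abel
          have h7 := hχl y i
          rw [h6, abs_sub_comm] at h7
          exact h7
      calc |χ y - χ x| * |v y| * ‖u x‖ ≤ lam * |v y| * ‖u x‖ := by gcongr
        _ = _ := by ring
    · rw [if_neg hx]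
      have h5 : χ y = χ x := by
        rcases hy with hy | hy
        · rw [hy]
          exact hχd x i (Or.inl hx)
        · have h6 : y + ev i = x := by rw [hy]; abel
          have h7 := hχd y i (Or.inr (by rw [h6]; exact hx))
          rw [h6] at h7
          exact h7.symm
      rw [h5, sub_self, abs_zero, zero_mul, zero_mul]
  have herr2 : ‖E2‖ ≤ 2 * d * lam * Real.sqrt A * W := by
    have h1 : ‖E2‖ ≤ ∑ x ∈ Al, ∑ i : Fin d, (lam * (|v (x + ev i)| * |‖u x‖|) +
        lam * (|v (x - ev i)| * |‖u x‖|)) := by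
      have h0 : ∑ x ∈ Al, ∑ i : Fin d, (lam * (|v (x + ev i)| * |‖u x‖|) +
          lam * (|v (x - ev i)| * |‖u x‖|)) = ∑ x, ∑ i : Fin d,
          ((if x ∈ Al then lam * (|v (x + ev i)| * |‖u x‖|) else 0) +
          (if x ∈ Al then lam * (|v (x - ev i)| * |‖u x‖|) else 0)) := by
        rw [← Finset.sum_subset (Finset.subset_univ Al)]
        · refine Finset.sum_congr rfl fun x hx => Finset.sum_congr rfl fun i _ => ?_
          rw [if_pos hx, if_pos hx]
        · intro x _ hx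
          refine Finset.sum_eq_zero fun i _ => ?_
          rw [if_neg hx, if_neg hx, add_zero]
      rw [hE2, h0]
      refine (norm_sum_le _ _).trans (Finset.sum_le_sum fun x _ => ?_)
      rw [norm_mul, Complex.norm_real, Real.norm_eq_abs, hr]
      refine (mul_le_mul_of_nonneg_right (Finset.abs_sum_le_sum_abs _ _) (norm_nonneg _)).trans ?_
      rw [Finset.sum_mul]
      refine Finset.sum_le_sum fun i _ => ?_
      refine (mul_le_mul_of_nonneg_right (abs_add_le _ _) (norm_nonneg _)).trans ?_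
      rw [add_mul]
      exact add_le_add (hterm x (x + ev i) ⟨i, Or.inl rfl⟩) (hterm x (x - ev i) ⟨i, Or.inr rfl⟩)
    rw [Finset.sum_comm] at h1
    have hWs' : ∑ x ∈ Al, (‖u x‖) ^ 2 ≤ W ^ 2 := hWs
    have h3 : ∀ i : Fin d, ∑ x ∈ Al, (lam * (|v (x + ev i)| * |‖u x‖|) +
        lam * (|v (x - ev i)| * |‖u x‖|)) ≤ 2 * lam * (Real.sqrt A * W) := by
      intro i
      rw [Finset.sum_add_distrib, ← Finset.mul_sum, ← Finset.mul_sum]
      have h4 : ∑ x ∈ Al, v (x + ev i) ^ 2 ≤ A := by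
        refine (Finset.sum_le_sum_of_subset_of_nonneg (Finset.subset_univ _)
          fun x _ _ => sq_nonneg _).trans ?_
        have := Equiv.sum_comp (Equiv.addRight (ev i : Tor d M)) fun x => v x ^ 2
        exact this.le.trans hvA
      have h5 : ∑ x ∈ Al, v (x - ev i) ^ 2 ≤ A := by
        refine (Finset.sum_le_sum_of_subset_of_nonneg (Finset.subset_univ _)
          fun x _ _ => sq_nonneg _).trans ?_
        have := Equiv.sum_comp (Equiv.subRight (ev i : Tor d M)) fun x => v x ^ 2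
        exact this.le.trans hvA
      have h6 := cs_abs Al (fun x => v (x + ev i)) (fun x => ‖u x‖) hW h4 hWs'
      have h7 := cs_abs Al (fun x => v (x - ev i)) (fun x => ‖u x‖) hW h5 hWs'
      have h8 := mul_le_mul_of_nonneg_left h6 hlam
      have h9 := mul_le_mul_of_nonneg_left h7 hlam
      linarith
    refine h1.trans ((Finset.sum_le_sum fun i _ => h3 i).trans (le_of_eq ?_))
    rw [Finset.sum_const, Finset.card_univ, Fintype.card_fin, nsmul_eq_mul]
    ring
  linarith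

/-- LA3 -/
theorem la3 : La3Stmt := by
  classical
  intro d V E e he hBd
  obtain ⟨C, hC⟩ := hBd
  obtain ⟨w, hw1, hw2⟩ := limit_sol V E C hC
  have hsum : Summable fun y : Site d => w y ^ 2 :=
    summable_of_sum_le (fun y => sq_nonneg _) hw1
  -- the tail
  obtain ⟨S, hS⟩ := (summable_iff_vanishing_norm.1 hsum) (e ^ 2) (by positivity)
  obtain ⟨n₁, hn₁⟩ : ∃ n₁ : ℕ, ∀ y ∈ S, sd 0 y ≤ n₁ :=
    ⟨S.sup fun y => sd 0 y, fun y hy => Finset.le_sup (f := fun y => sd 0 y) hy⟩
  obtain ⟨n₂, hn₂⟩ := exists_nat_ge (C ^ 2)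
  refine ⟨max n₁ n₂, fun n hn M _ hM => ?_⟩
  refine ⟨fun x => w (rep x), ?_, ?_, ?_⟩
  · have h1 := hw1 (Finset.univ.image (rep : Tor d M → Site d))
    rw [Finset.sum_image (fun x _ y _ hxy => rep_inj hxy)] at h1
    refine h1.trans (hn₂.trans ?_)
    exact_mod_cast (le_max_right n₁ n₂).trans hn
  · obtain ⟨T, hT⟩ : ∃ T : Finset (Tor d M), T = Finset.univ.filter fun x => n < sd 0 (rep x) :=
      ⟨_, rfl⟩
    have h1 : Disjoint (T.image (rep : Tor d M → Site d)) S := by
      rw [Finset.disjoint_left]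
      intro y hy hyS
      obtain ⟨x, hx, rfl⟩ := Finset.mem_image.1 hy
      rw [hT, Finset.mem_filter] at hx
      have h2 := hn₁ _ hyS
      have h3 := (le_max_left n₁ n₂).trans hn
      omega
    have h2 := hS _ h1
    rw [Finset.sum_image (fun x _ y _ hxy => rep_inj hxy), Real.norm_eq_abs] at h2
    rw [← Finset.sum_filter, ← hT]
    exact ((le_abs_self _).trans_lt h2).le
  · intro x hx
    have e1 : ∀ i, rep (x + ev i) = rep x + Pi.single i 1 :=
      rep_add (R := sd 0 (rep x)) (by omega) le_rfl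
    have e2 : ∀ i, rep (x - ev i) = rep x - Pi.single i 1 :=
      rep_sub (R := sd 0 (rep x)) (by omega) le_rfl
    have h1 := hw2 (rep x)
    simp only [e1, e2]
    rw [h1]
    have h2 : (rep x = 0) ↔ (x = 0) := by
      constructor
      · intro h
        apply rep_inj
        rw [h]
        funext i
        unfold rep
        simp
      · rintro rfl
        funext i
        unfold rep
        simp
    simp only [h2]

/-- FN3 -/
theorem fn3 (hPR3 : Pr3Stmt) (hSPC : SpcStmt) (hEND : Pool.Agent.AEN.EndStmt) : Fn3Stmt.{u} := by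
  intro hTR d a hd ha
  obtain ⟨s₀, hs₀, H⟩ := hTR d a hd ha
  refine ⟨s₀, hs₀, ?_⟩
  intro σ hσ hσs Ω _ P _ ξ hm hlaw hind
  have h1 : ∀ᵐ V ∂(PP d (gl σ)), ∀ E0 : ℝ, -(2 * d - a) < E0 → E0 < 2 * d - a →
      ∀ φ : L2 d, IsEigen V E0 φ → φ = 0 := by
    refine hEND d σ (-(2 * d - a)) (2 * d - a) (by omega) hσ ?_
    filter_upwards [H σ hσ hσs] with E hE
    obtain ⟨e, he, hE⟩ := hE
    exact hPR3 d σ E e hσ he hE
  have h2 := hSPC d σ (by omega) hσ
  rw [← Pool.Agent.Mob.H42.map_eq_PP hm hlaw hind σ] at h1 h2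
  have hme : AEMeasurable (fun (ω : Ω) (y : Site d) => σ * ξ y ω) P :=
    (Pool.Agent.Mob.H42.measurable_W hm σ).aemeasurable
  have h3 := ae_of_ae_map hme h1
  have h4 := ae_of_ae_map hme h2
  filter_upwards [h3, h4] with ω w1 w2
  refine ⟨fun E₀ ε hε => w2 E₀ ε hε, fun E₀ hE₀ φ hφ => ?_⟩
  rw [abs_lt] at hE₀
  exact w1 E₀ hE₀.1 hE₀.2 φ hφ

end Pool.Agent.ANE.H72
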