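import Pool.Agent.ANE.Stmts
import Pool.Agent.Helper76_AEN.All
import Pool.Agent.Helper42_Mob.Fin

/-!
# ANE, row FIN: continuous spectrum in the bulk at weak disorder
-/

set_option autoImplicit false

open MeasureTheory ProbabilityTheory Function Filter

open scoped ENNReal BigOperators InnerProductSpace Topology NNReal Matrix

noncomputable section

namespace Pool.Agent.ANE.H72

open Pool.Agent.Anderson hiding box mem_box card_box
open Pool.Agent.Loc Pool.Agent.Mob Pool.Agent.Helper54.Bal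
  Pool.Agent.Helper96.EXP Pool.Agent.BED
open Pool.Agent.LE.MN Pool.Agent.LE.CL Pool.Agent.LE.IR Pool.Agent.LE.QD
open Pool.Agent.ANE

universe u

theorem fin' (hTOR : TorStmt) (hLAW : LawStmt) (hSPC : SpcStmt) (hEN2 : Pool.Agent.AEN.En2Stmt) :
    FinStmt.{u} := by
  intro d a hd ha
  obtain ⟨s₀, hs₀, H⟩ := hTOR d a hd ha
  refine ⟨s₀, hs₀, ?_⟩
  intro σ hσ hσs Ω _ P _ ξ hm hlaw hind
  have h1 : ∀ᵐ V ∂(PP d (gl σ)), ∀ E0 : ℝ, -(2 * d - a) < E0 → E0 < 2 * d - a →
      ∀ φ : L2 d, IsEigen V E0 φ → φ = 0 := by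
    refine hEN2 d σ (-(2 * d - a)) (2 * d - a) (by omega) hσ ?_
    filter_upwards [H σ hσ hσs] with E hE
    obtain ⟨c, p, hc, hp, hE⟩ := hE
    refine ⟨ENNReal.ofReal p, (ENNReal.ofReal_pos.2 hp).ne', ?_⟩
    refine hLAW d σ E _ hσ ?_
    intro A ε hε
    have hA : 0 < |A| + 1 := by positivity
    obtain ⟨η, M, hM, hη, hηε, h1, h2⟩ := hE (min ε (c / (|A| + 1)))
      (lt_min hε (by positivity))
    refine ⟨η, M, hM, hη, hηε.trans (min_le_left _ _), h1, ?_⟩
    intro v hv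
    refine (h2 v hv).trans (measure_mono ?_)
    intro V hV
    simp only [Set.mem_ofPred_eq] at hV ⊢
    refine le_trans ?_ hV
    have h3 : η ≤ c / (|A| + 1) := hηε.trans (min_le_right _ _)
    rw [le_div_iff₀ hA] at h3
    have h4 : A * η ≤ |A| * η := by gcongr; exact le_abs_self A
    nlinarith
  have h2 := hSPC d σ (by omega) hσ
  rw [← Pool.Agent.Mob.H42.map_eq_PP hm hlaw hind σ] at h1 h2
  have hme : AEMeasurable (fun (ω : Ω) (y : Site d) => σ * ξ y ω) P :=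
    (Pool.Agent.Mob.H42.measurable_W hm σ).aemeasurable
  have h3 := ae_of_ae_map hme h1
  have h4 := ae_of_ae_map hme h2
  filter_upwards [h3, h4] with ω w1 w2
  refine ⟨fun E₀ ε hε => w2 E₀ ε hε, fun E₀ hE₀ φ hφ => ?_⟩
  rw [abs_lt] at hE₀
  exact w1 E₀ hE₀.1 hE₀.2 φ hφ

end Pool.Agent.ANE.H72
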