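import Pool.Agent.ANE.Stmts2
import Pool.Agent.Helper76_AEN.All
import Pool.Agent.Helper42_Mob.Fin

/-!
# ANE, row FN2: continuous spectrum in the bulk at weak disorder
-/

set_option autoImplicit false

open MeasureTheory ProbabilityTheory Function Filter

open scoped ENNReal BigOperators InnerProductSpace Topology NNReal Matrix

noncomputable section

namespace Pool.Agent.ANE.H72

open Pool.Agent.Anderson hiding box mem_box card_box
open Pool.Agent.Loc Pool.Agent.Mob Pool.Agent.Helper54.Bal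
  Pool.Agent.Helper96.EXP Pool.Agent.BED
open Pool.Agent.LE.MN Pool.Agent.LE.CL Pool.Agent.LE.IR Pool.Agent.LE.QD
open Pool.Agent.ANE

universe u

theorem fn2 (hPR2 : Pr2Stmt) (hSPC : SpcStmt) (hEND : Pool.Agent.AEN.EndStmt) : Fn2Stmt.{u} := by
  intro hTR d a hd ha
  obtain ⟨s₀, hs₀, H⟩ := hTR d a hd ha
  refine ⟨s₀, hs₀, ?_⟩
  intro σ hσ hσs Ω _ P _ ξ hm hlaw hind
  have h1 : ∀ᵐ V ∂(PP d (gl σ)), ∀ E0 : ℝ, -(2 * d - a) < E0 → E0 < 2 * d - a →
      ∀ φ : L2 d, IsEigen V E0 φ → φ = 0 := by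
    refine hEND d σ (-(2 * d - a)) (2 * d - a) (by omega) hσ ?_
    filter_upwards [H σ hσ hσs] with E hE
    obtain ⟨p, hp, hE⟩ := hE
    exact hPR2 d σ E p hσ hp hE
  have h2 := hSPC d σ (by omega) hσ
  rw [← Pool.Agent.Mob.H42.map_eq_PP hm hlaw hind σ] at h1 h2
  have hme : AEMeasurable (fun (ω : Ω) (y : Site d) => σ * ξ y ω) P :=
    (Pool.Agent.Mob.H42.measurable_W hm σ).aemeasurable
  have h3 := ae_of_ae_map hme h1
  have h4 := ae_of_ae_map hme h2
  filter_upwards [h3, h4] with ω w1 w2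
  refine ⟨fun E₀ ε hε => w2 E₀ ε hε, fun E₀ hE₀ φ hφ => ?_⟩
  rw [abs_lt] at hE₀
  exact w1 E₀ hE₀.1 hE₀.2 φ hφ

end Pool.Agent.ANE.H72
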